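import Pool.Agent.H.MP_0d008e_co.Defs

/-!
# A form of Menger's theorem (from Hall's theorem)
-/

set_option autoImplicit false

namespace Pool.Agent.H.MP_0d008e_co

open Relation Finset

/-- `P` is a set of vertices all of which lie on walks inside `P` from `x` to `y`. -/
def Link {V : Type*} (G : V → V → Prop) (P : Finset V) (x y : V) : Prop :=
  x ∈ P ∧ y ∈ P ∧ ∀ p ∈ P, ReflTransGen (Induced G (P : Set V)) x p ∧
    ReflTransGen (Induced G (P : Set V)) p y

/-- A separation `(A, Z)` of the digraph `G` on `R ∪ I ∪ L`: `A` contains `L`, meets `R` only in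
`Z ⊆ A`, and no arc enters `A \ Z` from outside `A`. -/
structure SepPair {V : Type*} [DecidableEq V] (G : V → V → Prop) (R I L A Z : Finset V) : Prop where
  sub : A ⊆ R ∪ I ∪ L
  Zsub : Z ⊆ A
  Lsub : L ⊆ A
  Rsub : A ∩ R ⊆ Z
  noarc : ∀ u ∈ (R ∪ I ∪ L) \ A, ∀ v ∈ A \ Z, ¬ G u v

theorem rtg_lift {V : Type*} {G S : V → V → Prop} (hSG : ∀ a b, S a b → G a b ∨ a = b)
    {P : Set V} {x p q : V} (hP : ∀ v, ReflTransGen S x v → v ∈ P)
    (h1 : ReflTransGen S x p) (h2 : ReflTransGen S p q) :
    ReflTransGen (Induced G P) p q := by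
  induction h2 with
  | refl => exact ReflTransGen.refl
  | @tail b c hb hc ih =>
    rcases hSG b c hc with h | h
    · refine ih.tail ⟨hP b (h1.trans hb), hP c ((h1.trans hb).tail hc), h⟩
    · rw [← h]; exact ih

section hall

variable {V : Type*} [Fintype V] [DecidableEq V]

theorem exists_hall {G : V → V → Prop} {R I L : Finset V} (hRI : Disjoint R I)
    (hRL : Disjoint R L) (hIL : Disjoint I L) {k : ℕ}
    (hk : ∀ A Z, SepPair G R I L A Z → k ≤ Z.card) :
    k ≤ R.card ∧ ∃ f : {v // v ∈ R ∪ I} → V ⊕ Fin (R.card - k), Function.Injective f ∧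
      ∀ x v, f x = Sum.inl v → v ∈ I ∪ L ∧ (G x v ∨ (x : V) = v) := by
  classical
  have hkR : k ≤ R.card := by
    refine hk (R ∪ I ∪ L) R ⟨Subset.refl _, ?_, ?_, inter_subset_right, ?_⟩
    · exact (subset_union_left).trans subset_union_left
    · exact subset_union_right
    · intro u hu
      simp at hu
  refine ⟨hkR, ?_⟩
  set t : {v // v ∈ R ∪ I} → Finset (V ⊕ Fin (R.card - k)) := fun x =>
    ((I ∪ L).filter (fun v => G x v ∨ (x : V) = v)).disjSum univ with ht
  have hall : ∀ s : Finset {v // v ∈ R ∪ I}, s.card ≤ (s.biUnion t).card := by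
    intro s
    rcases s.eq_empty_or_nonempty with hs | hs
    · rw [hs]; simp
    · set X : Finset V := s.map (Function.Embedding.subtype _) with hX
      have hXmem : ∀ v, v ∈ X → v ∈ R ∪ I := by
        intro v hv
        rw [hX, mem_map] at hv
        obtain ⟨a, _, ha⟩ := hv
        rw [← ha]; exact a.2
      have hXc : X.card = s.card := card_map _
      set N : Finset V := (I ∪ L).filter (fun v => ∃ u ∈ X, G u v ∨ u = v) with hN
      have hbi : s.biUnion t = N.disjSum univ := by
        ext z
        simp only [mem_biUnion, ht]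
        constructor
        · rintro ⟨a, ha, hz⟩
          rcases z with z | z
          · rw [inl_mem_disjSum, mem_filter] at hz
            rw [inl_mem_disjSum, hN, mem_filter]
            refine ⟨hz.1, a, ?_, hz.2⟩
            rw [hX, mem_map]
            exact ⟨a, ha, rfl⟩
          · rw [inr_mem_disjSum]; exact mem_univ _
        · intro hz
          rcases z with z | z
          · rw [inl_mem_disjSum, hN, mem_filter] at hz
            obtain ⟨h1, u, hu, h2⟩ := hz
            rw [hX, mem_map] at hu
            obtain ⟨a, ha, hau⟩ := hu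
            refine ⟨a, ha, ?_⟩
            rw [inl_mem_disjSum, mem_filter]
            refine ⟨h1, ?_⟩
            rw [← hau] at h2
            exact h2
          · obtain ⟨a, ha⟩ := hs
            exact ⟨a, ha, by rw [inr_mem_disjSum]; exact mem_univ _⟩
      rw [hbi, card_disjSum, ← hXc, card_univ, Fintype.card_fin]
      -- the separation
      have hXL : ∀ v ∈ X, v ∉ L := by
        intro v hv hvL
        rcases mem_union.1 (hXmem v hv) with h | h
        · exact (Finset.disjoint_left.1 hRL) h hvL
        · exact (Finset.disjoint_left.1 hIL) h hvL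
      have hsep : SepPair G R I L ((R ∪ I ∪ L) \ X) ((R \ X) ∪ (N \ X)) := by
        refine ⟨sdiff_subset, ?_, ?_, ?_, ?_⟩
        · intro v hv
          simp only [mem_union, mem_sdiff, hN, mem_filter] at hv ⊢
          tauto
        · intro v hv
          simp only [mem_union, mem_sdiff]
          exact ⟨Or.inr hv, fun h => hXL v h hv⟩
        · intro v hv
          simp only [mem_union, mem_sdiff, mem_inter] at hv ⊢
          tauto
        · intro u hu v hv hG
          have huX : u ∈ X := by
            simp only [mem_union, mem_sdiff] at hu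
            tauto
          simp only [mem_union, mem_sdiff, not_or, not_and, not_not] at hv
          obtain ⟨⟨hv1, hv2⟩, hv3, hv4⟩ := hv
          have hvIL : v ∈ I ∪ L := by
            simp only [mem_union]
            rcases hv1 with (h | h) | h
            · exact absurd (hv3 h) hv2
            · exact Or.inl h
            · exact Or.inr h
          have : v ∈ N := by
            rw [hN, mem_filter]
            exact ⟨hvIL, u, huX, Or.inl hG⟩
          exact hv2 (hv4 this)
      have hcard := hk _ _ hsep
      have hdis : Disjoint (R \ X) (N \ X) := by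
        rw [Finset.disjoint_left]
        intro v hv hv'
        have h1 := (mem_sdiff.1 hv).1
        have h2 := (mem_filter.1 (mem_sdiff.1 hv').1).1
        rcases mem_union.1 h2 with h | h
        · exact (Finset.disjoint_left.1 hRI) h1 h
        · exact (Finset.disjoint_left.1 hRL) h1 h
      rw [card_union_of_disjoint hdis] at hcard
      have e1 : (R \ X).card + (R ∩ X).card = R.card := card_sdiff_add_card_inter R X
      have e2 : (N \ X).card + (N ∩ X).card = N.card := card_sdiff_add_card_inter N X
      have e3 : N ∩ X = I ∩ X := by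
        ext v
        simp only [mem_inter, hN, mem_filter, mem_union]
        constructor
        · rintro ⟨⟨h1, _⟩, h2⟩
          rcases h1 with h1 | h1
          · exact ⟨h1, h2⟩
          · exact absurd h1 (hXL v h2)
        · rintro ⟨h1, h2⟩
          exact ⟨⟨Or.inl h1, v, h2, Or.inr rfl⟩, h2⟩
      have e4 : (R ∩ X).card + (I ∩ X).card = X.card := by
        rw [← card_union_of_disjoint]
        · congr 1
          ext v
          simp only [mem_union, mem_inter]
          constructor
          · tauto
          · intro hv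
            have := mem_union.1 (hXmem v hv)
            tauto
        · rw [Finset.disjoint_left]
          intro v hv hv'
          exact (Finset.disjoint_left.1 hRI) (mem_inter.1 hv).1 (mem_inter.1 hv').1
      rw [e3] at e2
      omega
  obtain ⟨f, hf, hft⟩ := (Finset.all_card_le_biUnion_card_iff_exists_injective t).1 hall
  refine ⟨f, hf, ?_⟩
  intro x v hxv
  have := hft x
  rw [hxv, ht] at this
  simp only [inl_mem_disjSum, mem_filter] at this
  exact this

/-- Menger's theorem: if every separation has order at least `k`, there are `k` disjoint links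
from `R` to `L`. -/
theorem exists_links {G : V → V → Prop} {R I L : Finset V} (hRI : Disjoint R I)
    (hRL : Disjoint R L) (hIL : Disjoint I L) {k : ℕ}
    (hk : ∀ A Z, SepPair G R I L A Z → k ≤ Z.card) :
    ∃ (x y : Fin k → V) (P : Fin k → Finset V),
      (∀ i, x i ∈ R) ∧ (∀ i, y i ∈ L) ∧ (∀ i, Link G (P i) (x i) (y i)) ∧
      (∀ i, P i ⊆ {x i, y i} ∪ I) ∧ ∀ i j, i ≠ j → Disjoint (P i) (P j) := by
  classical
  obtain ⟨hkR, f, hf, hfG⟩ := exists_hall hRI hRL hIL hk
  set S : V → V → Prop := fun a b => ∃ h : a ∈ R ∪ I, f ⟨a, h⟩ = Sum.inl b with hS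
  have hSfun : Relator.RightUnique S := by
    rintro a b c ⟨h1, h2⟩ ⟨h3, h4⟩
    rw [h2] at h4
    exact Sum.inl_injective h4
  have hSinj : ∀ a b c, S a c → S b c → a = b := by
    rintro a b c ⟨h1, h2⟩ ⟨h3, h4⟩
    have := hf (h2.trans h4.symm)
    exact congrArg Subtype.val this
  have hSG : ∀ a b, S a b → G a b ∨ a = b := fun a b ⟨h1, h2⟩ => (hfG _ _ h2).2
  have hSr : ∀ a b, S a b → b ∈ I ∪ L := fun a b ⟨h1, h2⟩ => (hfG _ _ h2).1
  have hSl : ∀ a b, S a b → a ∈ R ∪ I := fun a b ⟨h1, h2⟩ => h1
  have hxnot : ∀ x ∈ R, ∀ a, ¬ S a x := by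
    intro x hx a ha
    rcases mem_union.1 (hSr a x ha) with h | h
    · exact (Finset.disjoint_left.1 hRI) hx h
    · exact (Finset.disjoint_left.1 hRL) hx h
  -- orbits
  set O : V → Finset V := fun x => univ.filter (fun p => ReflTransGen S x p) with hO
  have hmemO : ∀ x p, p ∈ O x ↔ ReflTransGen S x p := by intro x p; simp [hO]
  have horb : ∀ x p, ReflTransGen S x p → p = x ∨ p ∈ I ∪ L := by
    intro x p h
    rcases ReflTransGen.cases_tail h with h | ⟨c, _, h⟩
    · exact Or.inl h
    · exact Or.inr (hSr _ _ h)
  have hend : ∀ x ∈ R, ∃ e, e ∈ O x ∧ ∀ b, ¬ S e b := by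
    intro x hx
    by_contra hcon
    push Not at hcon
    have hcon' : ∀ e, ∃ b, e ∈ O x → S e b := by
      intro e
      by_cases he : e ∈ O x
      · obtain ⟨b, hb⟩ := hcon e he
        exact ⟨b, fun _ => hb⟩
      · exact ⟨e, fun h => absurd h he⟩
    choose σ hσ using hcon'
    have h1 : ((O x).image σ) ⊆ (O x).erase x := by
      intro b hb
      rw [mem_image] at hb
      obtain ⟨a, ha, hab⟩ := hb
      have hs := hσ a ha
      rw [hab] at hs
      rw [mem_erase]
      refine ⟨?_, ?_⟩
      · intro hbx
        rw [hbx] at hs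
        exact hxnot x hx a hs
      · rw [hmemO] at ha ⊢
        exact ha.tail hs
    have h2 : ((O x).image σ).card = (O x).card := by
      apply card_image_of_injOn
      intro a ha b hb hab
      have ha' := hσ a ha
      have hb' := hσ b hb
      rw [← hab] at hb'
      exact hSinj a b _ ha' hb'
    have h3 := Finset.card_le_card h1
    have hx : x ∈ O x := (hmemO x x).2 ReflTransGen.refl
    rw [h2, card_erase_of_mem hx] at h3
    have : 0 < (O x).card := card_pos.2 ⟨x, hx⟩
    omega
  have hend' : ∀ x, ∃ e, x ∈ R → (e ∈ O x ∧ ∀ b, ¬ S e b) := by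
    intro x
    by_cases hx : x ∈ R
    · obtain ⟨e, he⟩ := hend x hx
      exact ⟨e, fun _ => he⟩
    · exact ⟨x, fun h => absurd h hx⟩
  choose e he using hend'
  have hreach : ∀ x ∈ R, ∀ p, ReflTransGen S x p → ReflTransGen S p (e x) := by
    intro x hx p hp
    have h1 := (hmemO x (e x)).1 (he x hx).1
    rcases ReflTransGen.total_of_right_unique hSfun hp h1 with h | h
    · exact h
    · rcases ReflTransGen.cases_head h with h' | ⟨c, h', _⟩
      · rw [h']
      · exact absurd h' ((he x hx).2 c)
  have hdisj : ∀ x ∈ R, ∀ x' ∈ R, ∀ p, ReflTransGen S x p → ReflTransGen S x' p → x = x' := by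
    intro x hx x' hx' p hp hp'
    have hfun : Relator.RightUnique (Function.swap S) := by
      intro a b c h1 h2
      exact hSinj _ _ _ h1 h2
    have h1 : ReflTransGen (Function.swap S) p x := by
      rw [reflTransGen_swap]; exact hp
    have h2 : ReflTransGen (Function.swap S) p x' := by
      rw [reflTransGen_swap]; exact hp'
    rcases ReflTransGen.total_of_right_unique hfun h1 h2 with h | h
    · rw [reflTransGen_swap] at h
      rcases ReflTransGen.cases_tail h with h' | ⟨c, _, h'⟩
      · exact h'
      · exact absurd h' (hxnot x hx c)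
    · rw [reflTransGen_swap] at h
      rcases ReflTransGen.cases_tail h with h' | ⟨c, _, h'⟩
      · exact h'.symm
      · exact absurd h' (hxnot x' hx' c)
  -- counting
  set D : Finset V := (R ∪ I).filter (fun a => ∃ b, S a b) with hD
  have hDcard : (R ∪ I).card ≤ D.card + (R.card - k) := by
    have h1 : (R ∪ I).card = D.card + ((R ∪ I).filter (fun a => ¬ ∃ b, S a b)).card := by
      rw [hD]
      exact (card_filter_add_card_filter_not _).symm
    have h2 : ((R ∪ I).filter (fun a => ¬ ∃ b, S a b)).card ≤ R.card - k := by
      have : ∀ a ∈ (R ∪ I).filter (fun a => ¬ ∃ b, S a b), ∃ j : Fin (R.card - k),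
          ∃ h : a ∈ R ∪ I, f ⟨a, h⟩ = Sum.inr j := by
        intro a ha
        rw [mem_filter] at ha
        rcases hfa : f ⟨a, ha.1⟩ with v | j
        · exact absurd ⟨v, ha.1, hfa⟩ ha.2
        · exact ⟨j, ha.1, hfa⟩
      have hex : ∀ a, ∃ j : Option (Fin (R.card - k)),
          a ∈ (R ∪ I).filter (fun a => ¬ ∃ b, S a b) →
          ∃ j', j = some j' ∧ ∃ h : a ∈ R ∪ I, f ⟨a, h⟩ = Sum.inr j' := by
        intro a
        by_cases ha : a ∈ (R ∪ I).filter (fun a => ¬ ∃ b, S a b)
        · obtain ⟨j, hj⟩ := this a ha
          exact ⟨some j, fun _ => ⟨j, rfl, hj⟩⟩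
        · exact ⟨none, fun h => absurd h ha⟩
      choose φ hφ using hex
      have hc : ((R ∪ I).filter (fun a => ¬ ∃ b, S a b)).card ≤
          ((univ : Finset (Fin (R.card - k))).map Function.Embedding.some).card := by
        apply card_le_card_of_injOn φ
        · intro a ha
          obtain ⟨j, hj, _⟩ := hφ a ha
          rw [hj]
          simp
        · intro a ha b hb hab
          obtain ⟨j, hj, ha', hfa⟩ := hφ a ha
          obtain ⟨j', hj', hb', hfb⟩ := hφ b hb
          rw [hj, hj'] at hab
          have hjj : j = j' := Option.some_injective _ hab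
          rw [hjj] at hfa
          exact congrArg Subtype.val (hf (hfa.trans hfb.symm))
      simpa using hc
    omega
  set good : Finset V := (R ∩ D).filter (fun x => e x ∈ L) with hgood
  have hkgood : k ≤ good.card := by
    have h1 : ((R ∩ D).filter (fun x => ¬ e x ∈ L)).card ≤ (I \ D).card := by
      apply card_le_card_of_injOn e
      · intro x hx
        simp only [coe_filter, Set.mem_setOf_eq, mem_inter] at hx
        obtain ⟨⟨hxR, hxD⟩, hxL⟩ := hx
        obtain ⟨h1, h2⟩ := he x hxR
        have h3 := (hmemO _ _).1 h1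
        have hne : e x ≠ x := by
          intro h
          rw [hD, mem_filter] at hxD
          obtain ⟨_, b, hb⟩ := hxD
          rw [h] at h2
          exact h2 b hb
        rcases horb x (e x) h3 with h | h
        · exact absurd h hne
        · rcases mem_union.1 h with h | h
          · simp only [coe_sdiff, Set.mem_diff, mem_coe]
            refine ⟨h, ?_⟩
            intro hd
            rw [hD, mem_filter] at hd
            obtain ⟨_, b, hb⟩ := hd
            exact h2 b hb
          · exact absurd h hxL
      · intro x hx x' hx' hxx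
        simp only [coe_filter, Set.mem_setOf_eq, mem_inter] at hx hx'
        refine hdisj x hx.1.1 x' hx'.1.1 (e x) ((hmemO _ _).1 (he x hx.1.1).1) ?_
        rw [hxx]
        exact (hmemO _ _).1 (he x' hx'.1.1).1
    have h2 : (R ∩ D).card = good.card + ((R ∩ D).filter (fun x => ¬ e x ∈ L)).card := by
      rw [hgood]
      exact (card_filter_add_card_filter_not _).symm
    have h3 : D.card = (R ∩ D).card + (I ∩ D).card := by
      rw [← card_union_of_disjoint]
      · congr 1
        ext v
        simp only [mem_union, mem_inter]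
        constructor
        · intro hv
          have := mem_union.1 (mem_filter.1 hv).1
          tauto
        · tauto
      · rw [Finset.disjoint_left]
        intro v hv hv'
        exact (Finset.disjoint_left.1 hRI) (mem_inter.1 hv).1 (mem_inter.1 hv').1
    have h4 : (I \ D).card + (I ∩ D).card = I.card := card_sdiff_add_card_inter I D
    have h5 : (R ∪ I).card = R.card + I.card := card_union_of_disjoint hRI
    omega
  obtain ⟨W, hW, hWc⟩ := exists_subset_card_eq hkgood
  set φ : Fin k ≃ W := (W.equivFinOfCardEq hWc).symm with hφ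
  have hφR : ∀ i, ((φ i : W) : V) ∈ R := by
    intro i
    exact (mem_inter.1 (mem_filter.1 (hW (φ i).2)).1).1
  refine ⟨fun i => (φ i : V), fun i => e (φ i), fun i => O (φ i), ?_, ?_, ?_, ?_, ?_⟩
  · exact hφR
  · intro i
    exact (mem_filter.1 (hW (φ i).2)).2
  · intro i
    refine ⟨(hmemO _ _).2 ReflTransGen.refl, (he _ (hφR i)).1, ?_⟩
    intro p hp
    have hp' := (hmemO _ _).1 hp
    constructor
    · exact rtg_lift hSG (fun v hv => mem_coe.2 ((hmemO _ _).2 hv)) ReflTransGen.refl hp'
    · exact rtg_lift hSG (fun v hv => mem_coe.2 ((hmemO _ _).2 hv)) hp'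
        (hreach _ (hφR i) p hp')
  · intro i p hp
    have hp' := (hmemO _ _).1 hp
    simp only [mem_union, mem_insert, mem_singleton]
    rcases horb _ _ hp' with h | h
    · exact Or.inl (Or.inl h)
    · rcases mem_union.1 h with h | h
      · exact Or.inr h
      · left; right
        have := hreach _ (hφR i) p hp'
        rcases ReflTransGen.cases_head this with h' | ⟨c, h', _⟩
        · exact h'
        · exfalso
          rcases mem_union.1 (hSl _ _ h') with h'' | h''
          · exact (Finset.disjoint_left.1 hRL) h'' h
          · exact (Finset.disjoint_left.1 hIL) h'' h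
  · intro i j hij
    rw [Finset.disjoint_left]
    intro p hp hp'
    have := hdisj _ (hφR i) _ (hφR j) p ((hmemO _ _).1 hp) ((hmemO _ _).1 hp')
    exact hij (φ.injective (Subtype.ext this))

end hall

end Pool.Agent.H.MP_0d008e_co
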