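import Pool.Agent.H.MP_0d008e_co.Select
import Pool.Agent.H.MP_0d008e_co.Menger

/-!
# Assembling strong complete minors
-/

set_option autoImplicit false

namespace Pool.Agent.H.MP_0d008e_co

open Finset Relation

theorem rtg_mono {V : Type*} {A G : V → V → Prop} (hG : ∀ a b, G a b → A a b) {X Y : Set V}
    (h : X ⊆ Y) {a b : V} (hab : ReflTransGen (Induced G X) a b) :
    ReflTransGen (Induced A Y) a b :=
by
  induction hab with
  | refl => exact ReflTransGen.refl
  | tail _ h' ih => exact ih.tail ⟨h h'.1, h h'.2.1, hG _ _ h'.2.2⟩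

theorem hasStrongMinor_zero {V : Type*} (A : V → V → Prop) : HasStrongMinor A 0 :=
  ⟨fun i => i.elim0, fun i => i.elim0, fun i => i.elim0, fun i => i.elim0, fun i => i.elim0⟩

section assemble

variable {V : Type*} [Fintype V] [DecidableEq V] {A : V → V → Prop} [DecidableRel A]

/-- The middle vertices of the 2-paths from `a` to `b`. -/
def mid (A : V → V → Prop) [DecidableRel A] (a b : V) : Finset V :=
  univ.filter (fun u => A a u ∧ A u b)

omit [DecidableEq V] in
theorem mem_mid {a b u : V} : u ∈ mid A a b ↔ A a u ∧ A u b := by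
  simp [mid]

/-- The assembly lemma. -/
theorem assemble [Nonempty V] (r n : ℕ) (x y : ℕ → V) (P Z : ℕ → Finset V) (p q : V → V)
    (hlink : ∀ i < r, Link A (P i) (x i) (y i))
    (hPd : ∀ i < r, ∀ j < r, i ≠ j → Disjoint (P i) (P j))
    (hZd : ∀ i < r, ∀ j < r, i ≠ j → Disjoint (Z i) (Z j))
    (hPZ : ∀ i < r, ∀ j < r, Disjoint (P i) (Z j))
    (hZarc : ∀ i < r, ∀ j < r, i ≠ j → ∃ a ∈ Z i, ∃ b ∈ Z j, A a b)
    (hpq : ∀ i < r, ∀ z ∈ Z i, p z ∈ P i ∧ q z ∈ P i)
    (hclose : ∀ i < r, x i = y i ∨ ∃ z ∈ Z i, p z = y i ∧ q z = x i)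
    (hn : 2 * ((range r).biUnion Z).card ≤ n)
    (hcard : ∀ z ∈ (range r).biUnion Z,
      n + ((range r).biUnion P ∪ (range r).biUnion Z).card ≤ (mid A (p z) z).card ∧
      n + ((range r).biUnion P ∪ (range r).biUnion Z).card ≤ (mid A z (q z)).card) :
    HasStrongMinor A r := by
  classical
  set F := (range r).biUnion P ∪ (range r).biUnion Z with hF
  obtain ⟨f, hf1, hf2⟩ := exists_distinct (ι := V × Bool)
    (fun zb => if zb.2 then mid A zb.1 (q zb.1) else mid A (p zb.1) zb.1) F n
    ((range r).biUnion Z ×ˢ (univ : Finset Bool)) (by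
      rw [card_product, card_univ, Fintype.card_bool]; omega) (by
      rintro ⟨z, b⟩ hz
      rw [mem_product] at hz
      obtain ⟨h1, h2⟩ := hcard z hz.1
      cases b
      · simpa using h1
      · simpa using h2)
  have hmemZ : ∀ i < r, ∀ z ∈ Z i, z ∈ (range r).biUnion Z := fun i hi z hz =>
    mem_biUnion.2 ⟨i, mem_range.2 hi, hz⟩
  have hfout : ∀ i < r, ∀ z ∈ Z i, A (p z) (f (z, false)) ∧ A (f (z, false)) z := by
    intro i hi z hz
    have := (hf2 (z, false) (mem_product.2 ⟨hmemZ i hi z hz, mem_univ _⟩)).1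
    simp only [Bool.false_eq_true, if_false] at this
    exact mem_mid.1 this
  have hfin : ∀ i < r, ∀ z ∈ Z i, A z (f (z, true)) ∧ A (f (z, true)) (q z) := by
    intro i hi z hz
    have := (hf2 (z, true) (mem_product.2 ⟨hmemZ i hi z hz, mem_univ _⟩)).1
    simp only [if_true] at this
    exact mem_mid.1 this
  have hfF : ∀ i < r, ∀ z ∈ Z i, ∀ b, f (z, b) ∉ F := by
    intro i hi z hz b
    exact (hf2 (z, b) (mem_product.2 ⟨hmemZ i hi z hz, mem_univ _⟩)).2
  set X : ℕ → Set V := fun i => {v | v ∈ P i ∨ v ∈ Z i ∨ ∃ z ∈ Z i, ∃ b, f (z, b) = v} with hX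
  have hPX : ∀ i, (P i : Set V) ⊆ X i := fun i v hv => Or.inl hv
  have hZX : ∀ i z, z ∈ Z i → z ∈ X i := fun i v hv => Or.inr (Or.inl hv)
  have hfX : ∀ i z, z ∈ Z i → ∀ b, f (z, b) ∈ X i := fun i z hz b => Or.inr (Or.inr ⟨z, hz, b, rfl⟩)
  refine ⟨fun i => X i, ?_, ?_, ?_, ?_⟩
  · intro i
    exact ⟨x i, Or.inl (hlink i i.2).1⟩
  · rintro ⟨i, hi⟩
    show StronglyConnected A (X i)
    -- from y i to x i
    obtain ⟨hx, hy, hl⟩ := hlink i hi
    have hl1 : ∀ w ∈ P i, ReflTransGen (Induced A (X i)) (x i) w := fun w hw =>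
      rtg_mono (fun _ _ h => h) (hPX i) (hl w hw).1
    have hl2 : ∀ w ∈ P i, ReflTransGen (Induced A (X i)) w (y i) := fun w hw =>
      rtg_mono (fun _ _ h => h) (hPX i) (hl w hw).2
    have hpz : ∀ z ∈ Z i, ReflTransGen (Induced A (X i)) (p z) (f (z, false)) := fun z hz =>
      ReflTransGen.single ⟨hPX i (hpq i hi z hz).1, hfX i z hz false, (hfout i hi z hz).1⟩
    have hfz : ∀ z ∈ Z i, ReflTransGen (Induced A (X i)) (f (z, false)) z := fun z hz =>
      ReflTransGen.single ⟨hfX i z hz false, hZX i z hz, (hfout i hi z hz).2⟩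
    have hzf : ∀ z ∈ Z i, ReflTransGen (Induced A (X i)) z (f (z, true)) := fun z hz =>
      ReflTransGen.single ⟨hZX i z hz, hfX i z hz true, (hfin i hi z hz).1⟩
    have hfq : ∀ z ∈ Z i, ReflTransGen (Induced A (X i)) (f (z, true)) (q z) := fun z hz =>
      ReflTransGen.single ⟨hfX i z hz true, hPX i (hpq i hi z hz).2, (hfin i hi z hz).2⟩
    have hyx : ReflTransGen (Induced A (X i)) (y i) (x i) := by
      rcases hclose i hi with h | ⟨z, hz, h1, h2⟩
      · rw [h]
      · have := (((hpz z hz).trans (hfz z hz)).trans (hzf z hz)).trans (hfq z hz)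
        rw [h1, h2] at this
        exact this
    have hto : ∀ w ∈ X i, ReflTransGen (Induced A (X i)) w (x i) := by
      rintro w (hw | hw | ⟨z, hz, b, hb⟩)
      · exact (hl2 w hw).trans hyx
      · exact (((hzf w hw).trans (hfq w hw)).trans (hl2 _ (hpq i hi w hw).2)).trans hyx
      · rw [← hb]
        cases b
        · exact (((((hfz z hz).trans (hzf z hz)).trans (hfq z hz)).trans
            (hl2 _ (hpq i hi z hz).2)).trans hyx)
        · exact ((hfq z hz).trans (hl2 _ (hpq i hi z hz).2)).trans hyx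
    have hfrom : ∀ w ∈ X i, ReflTransGen (Induced A (X i)) (x i) w := by
      rintro w (hw | hw | ⟨z, hz, b, hb⟩)
      · exact hl1 w hw
      · exact ((hl1 _ (hpq i hi w hw).1).trans (hpz w hw)).trans (hfz w hw)
      · rw [← hb]
        cases b
        · exact (hl1 _ (hpq i hi z hz).1).trans (hpz z hz)
        · exact (((hl1 _ (hpq i hi z hz).1).trans (hpz z hz)).trans (hfz z hz)).trans (hzf z hz)
    intro u hu v hv
    exact (hto u hu).trans (hfrom v hv)
  · rintro ⟨i, hi⟩ ⟨j, hj⟩ hij
    have hij' : i ≠ j := fun h => hij (Fin.ext h)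
    show Disjoint (X i) (X j)
    rw [Set.disjoint_left]
    have hFP : ∀ i < r, ∀ v ∈ P i, v ∈ F := fun i hi v hv =>
      mem_union_left _ (mem_biUnion.2 ⟨i, mem_range.2 hi, hv⟩)
    have hFZ : ∀ i < r, ∀ v ∈ Z i, v ∈ F := fun i hi v hv =>
      mem_union_right _ (mem_biUnion.2 ⟨i, mem_range.2 hi, hv⟩)
    rintro v (h | h | ⟨z, hz, b, hb⟩) (h' | h' | ⟨z', hz', b', hb'⟩)
    · exact (Finset.disjoint_left.1 (hPd i hi j hj hij')) h h'
    · exact (Finset.disjoint_left.1 (hPZ i hi j hj)) h h'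
    · exact hfF j hj z' hz' b' (hb' ▸ hFP i hi v h)
    · exact (Finset.disjoint_left.1 (hPZ j hj i hi)) h' h
    · exact (Finset.disjoint_left.1 (hZd i hi j hj hij')) h h'
    · exact hfF j hj z' hz' b' (hb' ▸ hFZ i hi v h)
    · exact hfF i hi z hz b (hb ▸ hFP j hj v h')
    · exact hfF i hi z hz b (hb ▸ hFZ j hj v h')
    · have h1 : (z, b) ∈ (((range r).biUnion Z ×ˢ (univ : Finset Bool) : Finset (V × Bool)) :
          Set (V × Bool)) := mem_coe.2 (mem_product.2 ⟨hmemZ i hi z hz, mem_univ _⟩)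
      have h2 : (z', b') ∈ (((range r).biUnion Z ×ˢ (univ : Finset Bool) : Finset (V × Bool)) :
          Set (V × Bool)) := mem_coe.2 (mem_product.2 ⟨hmemZ j hj z' hz', mem_univ _⟩)
      have h3 := hf1 h1 h2 (hb.trans hb'.symm)
      have h4 : z = z' := congrArg Prod.fst h3
      rw [← h4] at hz'
      exact (Finset.disjoint_left.1 (hZd i hi j hj hij')) hz hz'
  · rintro ⟨i, hi⟩ ⟨j, hj⟩ hij
    have hij' : i ≠ j := fun h => hij (Fin.ext h)
    obtain ⟨a, ha, b, hb, hab⟩ := hZarc i hi j hj hij'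
    exact ⟨a, hZX i a ha, b, hZX j b hb, hab⟩

/-- The out-degree. -/
def outdeg (A : V → V → Prop) [DecidableRel A] (v : V) : ℕ := (univ.filter (fun u => A v u)).card

/-- The number of out-neighbours of `a` which are not out-neighbours of `b`. -/
def ex (A : V → V → Prop) [DecidableRel A] (a b : V) : ℕ :=
  (univ.filter (fun u => A a u ∧ ¬ A b u)).card

theorem ex_le_mid (hT : IsTournament A) (a b : V) : ex A a b ≤ (mid A a b).card + 1 := by
  have h : univ.filter (fun u => A a u ∧ ¬ A b u) ⊆ insert b (mid A a b) := by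
    intro u hu
    rw [mem_filter] at hu
    rw [mem_insert, mem_mid]
    by_cases hub : u = b
    · exact Or.inl hub
    · right
      refine ⟨hu.2.1, ?_⟩
      rcases hT.total u b hub with h | h
      · exact h
      · exact absurd h hu.2.2
  exact (card_le_card h).trans (card_insert_le _ _)

omit [DecidableEq V] in
theorem outdeg_sub (a b : V) : outdeg A a + ex A b a = outdeg A b + ex A a b := by
  have h1 : outdeg A a = (univ.filter (fun u => A a u ∧ A b u)).card + ex A a b := by
    unfold outdeg ex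
    rw [← card_filter_add_card_filter_not (s := univ.filter (fun u => A a u)) (fun u => A b u),
      filter_filter, filter_filter]
  have h2 : outdeg A b = (univ.filter (fun u => A a u ∧ A b u)).card + ex A b a := by
    unfold outdeg ex
    rw [← card_filter_add_card_filter_not (s := univ.filter (fun u => A b u)) (fun u => A a u),
      filter_filter, filter_filter]
    congr 2
    ext u
    simp only [mem_filter, mem_univ, true_and]
    tauto
  omega

theorem ex_triangle (a b c : V) : ex A a c ≤ ex A a b + ex A b c := by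
  unfold ex
  refine (card_le_card ?_).trans (card_union_le _ _)
  intro u hu
  simp only [mem_filter, mem_univ, true_and, mem_union] at hu ⊢
  by_cases h : A b u
  · exact Or.inr ⟨h, hu.2⟩
  · exact Or.inl ⟨hu.1, h⟩

end assemble

end Pool.Agent.H.MP_0d008e_co
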