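import Pool.Agent.H.MP_0d008e_co.Defs

/-!
# Ranked sets and the Erdos-Moser partition
-/

set_option autoImplicit false

namespace Pool.Agent.H.MP_0d008e_co

open Relation Finset

/-- A set on which the arcs increase some rank function. -/
def Ranked {V : Type*} (A : V → V → Prop) (X : Set V) : Prop :=
  ∃ ρ : V → ℕ, ∀ a ∈ X, ∀ b ∈ X, A a b → ρ a < ρ b

theorem Ranked.acyclic {V : Type*} {A : V → V → Prop} {X : Set V} (h : Ranked A X) :
    Acyclic A X := by
  obtain ⟨ρ, hρ⟩ := h
  intro v hv
  have key : ∀ a b, TransGen (Induced A X) a b → ρ a < ρ b := by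
    intro a b hab
    induction hab with
    | single h => exact hρ _ h.1 _ h.2.1 h.2.2
    | tail _ h ih => exact ih.trans (hρ _ h.1 _ h.2.1 h.2.2)
  exact lt_irrefl _ (key v v hv)

theorem Ranked.mono {V : Type*} {A : V → V → Prop} {X Y : Set V} (h : Ranked A Y) (hXY : X ⊆ Y) :
    Ranked A X := by
  obtain ⟨ρ, hρ⟩ := h
  exact ⟨ρ, fun a ha b hb hab => hρ a (hXY ha) b (hXY hb) hab⟩

/-- If no arc goes from `Y` to `X`, the union of ranked `X` (finite) and `Y` is ranked. -/
theorem Ranked.union {V : Type*} [DecidableEq V] {A : V → V → Prop} {X : Finset V} {Y : Set V}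
    (hX : Ranked A (X : Set V)) (hY : Ranked A Y) (h : ∀ y ∈ Y, ∀ x ∈ X, ¬ A y x) :
    Ranked A ((X : Set V) ∪ Y) := by
  obtain ⟨ρ, hρ⟩ := hX
  obtain ⟨σ, hσ⟩ := hY
  refine ⟨fun v => if v ∈ X then ρ v else X.sup ρ + 1 + σ v, ?_⟩
  intro a ha b hb hab
  by_cases haX : a ∈ X <;> by_cases hbX : b ∈ X
  · simp only [haX, hbX, if_true]
    exact hρ a haX b hbX hab
  · simp only [haX, hbX, if_true, if_false]
    have := Finset.le_sup (f := ρ) haX
    omega
  · exfalso
    rcases ha with ha | ha
    · exact haX ha
    · exact h a ha b hbX hab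
  · have ha' : a ∈ Y := by
      rcases ha with ha | ha
      · exact absurd ha haX
      · exact ha
    have hb' : b ∈ Y := by
      rcases hb with hb | hb
      · exact absurd hb hbX
      · exact hb
    simp only [haX, hbX, if_false]
    have := hσ a ha' b hb' hab
    omega

theorem ranked_singleton {V : Type*} {A : V → V → Prop} (hT : IsTournament A) (v : V) :
    Ranked A ({v} : Set V) := by
  refine ⟨fun _ => 0, ?_⟩
  intro a ha b hb hab
  rw [Set.mem_singleton_iff] at ha hb
  subst ha; subst hb
  exact absurd hab (hT.irrefl _)

theorem card_out_add_in {V : Type*} [DecidableEq V] {A : V → V → Prop} [DecidableRel A]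
    (hT : IsTournament A) (S : Finset V) {v : V} (hv : v ∈ S) :
    (S.filter (fun u => A v u)).card + (S.filter (fun u => A u v)).card + 1 = S.card := by
  have h1 : S = insert v ((S.filter (fun u => A v u)) ∪ (S.filter (fun u => A u v))) := by
    ext u
    simp only [mem_insert, mem_union, mem_filter]
    constructor
    · intro hu
      by_cases huv : u = v
      · exact Or.inl huv
      · right
        rcases hT.total u v huv with h | h
        · exact Or.inr ⟨hu, h⟩
        · exact Or.inl ⟨hu, h⟩
    · rintro (h | h | h)
      · rw [h]; exact hv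
      · exact h.1
      · exact h.1
  have h2 : v ∉ ((S.filter (fun u => A v u)) ∪ (S.filter (fun u => A u v))) := by
    simp only [mem_union, mem_filter, not_or, not_and]
    exact ⟨fun _ => hT.irrefl v, fun _ => hT.irrefl v⟩
  have h3 : Disjoint (S.filter (fun u => A v u)) (S.filter (fun u => A u v)) := by
    rw [Finset.disjoint_left]
    intro u hu hu'
    exact hT.asymm _ _ (mem_filter.1 hu).2 (mem_filter.1 hu').2
  conv_rhs => rw [h1]
  rw [card_insert_of_notMem h2, card_union_of_disjoint h3]

/-- A tournament on `2 ^ k` vertices has a transitive subtournament on `k + 1` vertices. -/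
theorem exists_ranked {V : Type*} [DecidableEq V] {A : V → V → Prop} (hT : IsTournament A) :
    ∀ (k : ℕ) (S : Finset V), 2 ^ k ≤ S.card →
      ∃ X : Finset V, X ⊆ S ∧ X.card = k + 1 ∧ Ranked A (X : Set V) := by
  classical
  intro k
  induction k with
  | zero =>
    intro S hS
    have : S.Nonempty := by rw [← card_pos]; simpa using hS
    obtain ⟨v, hv⟩ := this
    refine ⟨{v}, by simpa using hv, by simp, ?_⟩
    rw [coe_singleton]
    exact ranked_singleton hT v
  | succ k ih =>
    intro S hS
    have hne : S.Nonempty := by
      rw [← card_pos]; exact lt_of_lt_of_le (by positivity) hS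
    obtain ⟨v, hv⟩ := hne
    have hc := card_out_add_in hT S hv
    have hpow : 2 ^ (k + 1) = 2 * 2 ^ k := by ring
    have hor : 2 ^ k ≤ (S.filter (fun u => A v u)).card ∨
        2 ^ k ≤ (S.filter (fun u => A u v)).card := by omega
    rcases hor with h | h
    · obtain ⟨X, hX, hcard, hr⟩ := ih _ h
      have hvX : v ∉ X := fun hx => hT.irrefl v (mem_filter.1 (hX hx)).2
      refine ⟨insert v X, ?_, ?_, ?_⟩
      · intro u hu
        rcases mem_insert.1 hu with h' | h'
        · rw [h']; exact hv
        · exact (mem_filter.1 (hX h')).1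
      · rw [card_insert_of_notMem hvX, hcard]
      · have h1 : Ranked A (({v} : Finset V) : Set V) := by
          rw [coe_singleton]; exact ranked_singleton hT v
        have := h1.union hr (by
          intro y hy x hx hyx
          rw [mem_singleton] at hx
          rw [hx] at hyx
          exact hT.asymm _ _ (mem_filter.1 (hX hy)).2 hyx)
        rw [coe_insert, Set.insert_eq]
        simpa using this
    · obtain ⟨X, hX, hcard, hr⟩ := ih _ h
      have hvX : v ∉ X := fun hx => hT.irrefl v (mem_filter.1 (hX hx)).2
      refine ⟨insert v X, ?_, ?_, ?_⟩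
      · intro u hu
        rcases mem_insert.1 hu with h' | h'
        · rw [h']; exact hv
        · exact (mem_filter.1 (hX h')).1
      · rw [card_insert_of_notMem hvX, hcard]
      · have := hr.union (ranked_singleton hT v) (by
          intro y hy x hx hyx
          rw [Set.mem_singleton_iff] at hy
          rw [hy] at hyx
          exact hT.asymm _ _ (mem_filter.1 (hX hx)).2 hyx)
        rw [coe_insert, Set.insert_eq, Set.union_comm]
        exact this

/-- The number of colours in the Erdos-Moser partition. -/
def em (K N : ℕ) : ℕ := N / K + 2 ^ K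

theorem em_mono {K N N' : ℕ} (h : N ≤ N') : em K N ≤ em K N' :=
  Nat.add_le_add_right (Nat.div_le_div_right h) _

/-- Every tournament on `N` vertices can be coloured with `N / K + 2 ^ K` colours. -/
theorem exists_em_coloring {V : Type*} [DecidableEq V] {A : V → V → Prop} (hT : IsTournament A)
    (K : ℕ) (hK : 0 < K) :
    ∀ (n : ℕ) (S : Finset V), S.card = n →
      ∃ c : V → ℕ, (∀ v ∈ S, c v < em K S.card) ∧ ∀ i, Ranked A {v | v ∈ S ∧ c v = i} := by
  classical
  intro n
  induction n using Nat.strong_induction_on with
  | _ n ih =>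
    intro S hS
    by_cases h : 2 ^ K ≤ S.card
    · obtain ⟨X, hX, hcard, hr⟩ := exists_ranked hT K S h
      have hlt : (S \ X).card < n := by
        rw [card_sdiff_of_subset hX, hcard]
        have := Finset.card_le_card hX
        omega
      obtain ⟨c, hc1, hc2⟩ := ih _ hlt (S \ X) rfl
      have hcardS : (S \ X).card + (K + 1) = S.card := by
        rw [card_sdiff_of_subset hX, hcard]
        have := Finset.card_le_card hX
        omega
      have hKle : K ≤ S.card := by omega
      have hem : em K (S \ X).card + 1 ≤ em K S.card := by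
        unfold em
        have h1 : (S \ X).card / K ≤ (S.card - K) / K := Nat.div_le_div_right (by omega)
        have h2 : S.card / K = (S.card - K) / K + 1 := Nat.div_eq_sub_div hK hKle
        omega
      refine ⟨fun v => if v ∈ X then em K (S \ X).card else c v, ?_, ?_⟩
      · intro v hv
        by_cases hvX : v ∈ X
        · simp only [hvX, if_true]; omega
        · simp only [hvX, if_false]
          have := hc1 v (mem_sdiff.2 ⟨hv, hvX⟩)
          omega
      · intro i
        by_cases hi : i = em K (S \ X).card
        · refine hr.mono ?_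
          rintro v ⟨hv, hvi⟩
          by_contra hvX
          have hvX' : v ∉ X := hvX
          simp only [hvX', if_false] at hvi
          have := hc1 v (mem_sdiff.2 ⟨hv, hvX'⟩)
          omega
        · refine (hc2 i).mono ?_
          rintro v ⟨hv, hvi⟩
          by_cases hvX : v ∈ X
          · simp only [hvX, if_true] at hvi
            exact absurd hvi.symm hi
          · simp only [hvX, if_false] at hvi
            exact ⟨mem_sdiff.2 ⟨hv, hvX⟩, hvi⟩
    · push Not at h
      -- colour injectively
      obtain ⟨e⟩ : Nonempty (S ≃ Fin S.card) := ⟨S.equivFin⟩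
      refine ⟨fun v => if hv : v ∈ S then (e ⟨v, hv⟩ : ℕ) else 0, ?_, ?_⟩
      · intro v hv
        simp only [hv, dif_pos]
        have h3 : (e ⟨v, hv⟩ : ℕ) < S.card := (e ⟨v, hv⟩).2
        unfold em
        exact lt_of_lt_of_le (h3.trans h) (Nat.le_add_left _ _)
      · intro i
        refine ⟨fun _ => 0, ?_⟩
        rintro a ⟨ha, hai⟩ b ⟨hb, hbi⟩ hab
        simp only [ha, hb, dif_pos] at hai hbi
        have : e ⟨a, ha⟩ = e ⟨b, hb⟩ := Fin.ext (hai.trans hbi.symm)
        have := e.injective this
        have hab' : a = b := congrArg Subtype.val this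
        rw [hab'] at hab
        exact absurd hab (hT.irrefl _)

end Pool.Agent.H.MP_0d008e_co
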