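import Pool.Agent.H.MP_0d008e_co.Chain

/-!
# The upper bound
-/

set_option autoImplicit false

namespace Pool.Agent.H.MP_0d008e_co

open Finset

/-- A tournament without a strong complete minor with `r` branch sets has a small dichromatic
number. -/
theorem main_bound {V : Type*} [Fintype V] {A : V → V → Prop}
    (hT : IsTournament A) (r s K : ℕ) (hr : 0 < r) (hs : 0 < s) (hK : 0 < K)
    (hrs : (2 * 7 ^ s) ^ s * r < (8 ^ s) ^ s) (hno : ¬ HasStrongMinor A r) :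
    Colorable A (r + 2 * em K (6000 * (r * s) + r)) := by
  classical
  set e0 : V ≃ Fin (Fintype.card V) := Fintype.equivFin V with he0
  set f : Fin (Fintype.card V) → ℕᵒᵈ := fun i => OrderDual.toDual (outdeg A (e0.symm i)) with hf
  have hmono := Tuple.monotone_sort f
  refine main_bound_aux (e0.trans (Tuple.sort f).symm) hT ?_ r s hr hs hrs hno _ ?_
  · intro u v huv
    have h := hmono huv
    simp only [Function.comp, Equiv.trans_apply, Equiv.apply_symm_apply, hf,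
      Equiv.symm_apply_apply, OrderDual.toDual_le_toDual] at h
    exact h
  · intro D hD
    obtain ⟨c, hc1, hc2⟩ := exists_em_coloring hT K hK D.card D rfl
    exact ⟨c, fun v hv => lt_of_lt_of_le (hc1 v hv) (em_mono hD), hc2⟩

theorem pow_aux1 (a k : ℕ) : (a ^ (6 * k)) ^ (6 * k) = a ^ (36 * k ^ 2) := by
  rw [← pow_mul, show 6 * k * (6 * k) = 36 * k ^ 2 by ring]

theorem pow_aux2 (a k : ℕ) : a ^ (36 * k ^ 2) = (a ^ 6) ^ (6 * k ^ 2) := by
  rw [← pow_mul, show 6 * (6 * k ^ 2) = 36 * k ^ 2 by ring]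

theorem pow_aux3 (a b c k r : ℕ) (h1 : (a * b ^ 6) ≤ c ^ 6) (h2 : a ^ (6 * k) * r < a ^ (6 * k ^ 2))
    (hb : 0 < b) :
    (a * b ^ (6 * k)) ^ (6 * k) * r < (c ^ (6 * k)) ^ (6 * k) := by
  rw [mul_pow, pow_aux1 b k, pow_aux1 c k, pow_aux2 c k]
  calc a ^ (6 * k) * b ^ (36 * k ^ 2) * r = (a ^ (6 * k) * r) * b ^ (36 * k ^ 2) := by ring
    _ < a ^ (6 * k ^ 2) * b ^ (36 * k ^ 2) :=
        Nat.mul_lt_mul_of_pos_right h2 (Nat.pow_pos hb)
    _ = (a * b ^ 6) ^ (6 * k ^ 2) := by rw [mul_pow, pow_aux2 b k]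
    _ ≤ (c ^ 6) ^ (6 * k ^ 2) := Nat.pow_le_pow_left h1 _

theorem pow_aux4 (q r : ℕ) (hq : 0 < q) (hr : r ≤ 2 ^ (q ^ 2)) :
    2 ^ (6 * (q + 1)) * r < 2 ^ (6 * (q + 1) ^ 2) := by
  have h4 : 6 * (q + 1) + q ^ 2 < 6 * (q + 1) ^ 2 := by nlinarith
  calc 2 ^ (6 * (q + 1)) * r ≤ 2 ^ (6 * (q + 1)) * 2 ^ (q ^ 2) := Nat.mul_le_mul_left _ hr
    _ = 2 ^ (6 * (q + 1) + q ^ 2) := by rw [← pow_add]
    _ < 2 ^ (6 * (q + 1) ^ 2) := Nat.pow_lt_pow_right (by norm_num) h4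

/-- The parameter condition holds for `s = 6 (q + 1)` when `r ≤ 2 ^ (q ^ 2)`. -/
theorem param_ok (q r : ℕ) (hq : 0 < q) (hr : r ≤ 2 ^ (q ^ 2)) :
    (2 * 7 ^ (6 * (q + 1))) ^ (6 * (q + 1)) * r < (8 ^ (6 * (q + 1))) ^ (6 * (q + 1)) :=
  pow_aux3 2 7 8 (q + 1) r (by norm_num) (pow_aux4 q r hq hr) (by norm_num)

/-- The upper bound with parameters `q` and `K`. -/
def ub (r q K : ℕ) : ℕ := r + 2 * em K (6000 * (r * (6 * (q + 1))) + r)

theorem colorable_ub {V : Type*} [Fintype V] {A : V → V → Prop}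
    (hT : IsTournament A) (r q K : ℕ) (hr : 0 < r) (hq : 0 < q) (hK : 0 < K)
    (hrq : r ≤ 2 ^ (q ^ 2)) (hno : ¬ HasStrongMinor A r) : Colorable A (ub r q K) :=
  main_bound hT r (6 * (q + 1)) K hr (by omega) hK (param_ok q r hq hrq) hno

theorem hasStrongMinor_le_card {V : Type*} [Fintype V] {A : V → V → Prop} {r : ℕ}
    (h : HasStrongMinor A r) : r ≤ Fintype.card V := by
  obtain ⟨X, hne, -, hd, -⟩ := h
  choose x hx using hne
  have hinj : Function.Injective x := by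
    intro i j hij
    by_contra hne
    have := Set.disjoint_left.1 (hd i j hne) (hx i)
    rw [hij] at this
    exact this (hx j)
  have := Fintype.card_le_of_injective x hinj
  simpa using this

theorem le_sm {V : Type*} [Fintype V] {A : V → V → Prop} {r : ℕ}
    (h : HasStrongMinor A r) : r ≤ sm A :=
  le_csSup ⟨Fintype.card V, fun _ hk => hasStrongMinor_le_card hk⟩ h

theorem mem_forcing (r q K : ℕ) (hr : 0 < r) (hq : 0 < q) (hK : 0 < K)
    (hrq : r ≤ 2 ^ (q ^ 2)) : ub r q K + 1 ∈ Forcing r := by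
  intro n A hT hk
  by_cases hno : HasStrongMinor A r
  · exact le_sm hno
  · exfalso
    have h1 : dichromatic A ≤ ub r q K := Nat.sInf_le (colorable_ub hT r q K hr hq hK hrq hno)
    omega

theorem forcing_nonempty (r : ℕ) : (Forcing r).Nonempty := by
  rcases Nat.eq_zero_or_pos r with h | h
  · exact ⟨0, fun n A _ _ => by rw [h]; exact Nat.zero_le _⟩
  · refine ⟨_, mem_forcing r r 1 h h one_pos ?_⟩
    have h1 : r ≤ r ^ 2 := by nlinarith
    exact h1.trans (Nat.lt_two_pow_self).le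

theorem isLeast_g (r : ℕ) : IsLeast (Forcing r) (g r) :=
  ⟨Nat.sInf_mem (forcing_nonempty r), fun _ hk => Nat.sInf_le hk⟩

theorem g_le (r q K : ℕ) (hr : 0 < r) (hq : 0 < q) (hK : 0 < K)
    (hrq : r ≤ 2 ^ (q ^ 2)) : g r ≤ ub r q K + 1 :=
  Nat.sInf_le (mem_forcing r q K hr hq hK hrq)

end Pool.Agent.H.MP_0d008e_co
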