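import Pool.Agent.H.MP_0d008e_co.Assemble

/-!
# Disjoint back paths across a reservoir give a large strong complete minor
-/

set_option autoImplicit false

namespace Pool.Agent.H.MP_0d008e_co

open Finset Relation

section crossing

variable {V : Type*} [Fintype V] [DecidableEq V] {A : V → V → Prop} [DecidableRel A]

/-- If the vertices of `L` have much larger out-degree than those of the reservoir `Q`, and these
much larger out-degree than those of `R`, and no separation of `R` from `L` outside the reservoir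
has order less than `r`, there is a strong complete minor with `r` branch sets. -/
theorem crossing (hT : IsTournament A) (r s : ℕ) (hr : 0 < r)
    (hrs : (2 * 7 ^ s) ^ s * r < (8 ^ s) ^ s) (R I L Q : Finset V) (Δ : ℕ)
    (hRI : Disjoint R I) (hRL : Disjoint R L) (hIL : Disjoint I L) (hI : I.card ≤ r)
    (hQ : 16 * (r * s) + 2 ≤ Q.card) (hQR : Disjoint Q R) (hQI : Disjoint Q I)
    (hQL : Disjoint Q L) (hΔ : 6 * (r * s) + 3 * r + 1 ≤ Δ)
    (gap1 : ∀ y ∈ L, ∀ z ∈ Q, outdeg A z + Δ ≤ outdeg A y)
    (gap2 : ∀ z ∈ Q, ∀ x ∈ R, outdeg A x + Δ ≤ outdeg A z)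
    (hk : ∀ A' Z', SepPair A R I L A' Z' → r ≤ Z'.card) :
    HasStrongMinor A r := by
  classical
  obtain ⟨x0, y0, P0, hx0, hy0, hl0, hP0, hd0⟩ := exists_links hRI hRL hIL hk
  obtain ⟨Z, hZ1, hZ2, hZ3⟩ := exists_selection hT r s hrs Q hQ
  have hVne : Nonempty V := ⟨x0 ⟨0, hr⟩⟩
  set x : ℕ → V := fun i => if h : i < r then x0 ⟨i, h⟩ else x0 ⟨0, hr⟩ with hx
  set y : ℕ → V := fun i => if h : i < r then y0 ⟨i, h⟩ else x0 ⟨0, hr⟩ with hy
  set P : ℕ → Finset V := fun i => if h : i < r then P0 ⟨i, h⟩ else ∅ with hP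
  have hxi : ∀ i (h : i < r), x i = x0 ⟨i, h⟩ := fun i h => by simp [hx, h]
  have hyi : ∀ i (h : i < r), y i = y0 ⟨i, h⟩ := fun i h => by simp [hy, h]
  have hPi : ∀ i (h : i < r), P i = P0 ⟨i, h⟩ := fun i h => by simp [hP, h]
  have hxR : ∀ i < r, x i ∈ R := fun i h => by rw [hxi i h]; exact hx0 _
  have hyL : ∀ i < r, y i ∈ L := fun i h => by rw [hyi i h]; exact hy0 _
  have hlink : ∀ i < r, Link A (P i) (x i) (y i) := fun i h => by
    rw [hxi i h, hyi i h, hPi i h]; exact hl0 _
  have hPsub : ∀ i < r, P i ⊆ {x i, y i} ∪ I := fun i h => by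
    rw [hxi i h, hyi i h, hPi i h]; exact hP0 _
  have hPd : ∀ i < r, ∀ j < r, i ≠ j → Disjoint (P i) (P j) := fun i h j h' hij => by
    rw [hPi i h, hPi j h']
    exact hd0 _ _ (fun e => hij (congrArg Fin.val e))
  have hPRIL : ∀ i < r, ∀ v ∈ P i, v ∈ R ∨ v ∈ I ∨ v ∈ L := by
    intro i hi v hv
    have := hPsub i hi hv
    simp only [mem_union, mem_insert, mem_singleton] at this
    rcases this with (h | h) | h
    · left; rw [h]; exact hxR i hi
    · right; right; rw [h]; exact hyL i hi
    · right; left; exact h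
  have hPZ : ∀ i < r, ∀ j < r, Disjoint (P i) (Z j) := by
    intro i hi j hj
    rw [Finset.disjoint_left]
    intro v hv hv'
    have hvQ := (hZ1 j hj).1 hv'
    rcases hPRIL i hi v hv with h | h | h
    · exact (Finset.disjoint_left.1 hQR) hvQ h
    · exact (Finset.disjoint_left.1 hQI) hvQ h
    · exact (Finset.disjoint_left.1 hQL) hvQ h
  have hZc : ((range r).biUnion Z).card ≤ 2 * (r * s) := by
    have h1 : ((range r).biUnion Z).card ≤ ∑ i ∈ range r, (Z i).card := card_biUnion_le
    have h2 : ∑ i ∈ range r, (Z i).card ≤ ∑ i ∈ range r, 2 * s :=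
      sum_le_sum (fun i hi => (hZ1 i (mem_range.1 hi)).2)
    rw [sum_const, card_range, smul_eq_mul] at h2
    have : r * (2 * s) = 2 * (r * s) := by ring
    omega
  have hPc : ((range r).biUnion P).card ≤ 3 * r := by
    have h1 : (range r).biUnion P ⊆ ((range r).image x ∪ (range r).image y) ∪ I := by
      intro v hv
      rw [mem_biUnion] at hv
      obtain ⟨i, hi, hv⟩ := hv
      have := hPsub i (mem_range.1 hi) hv
      simp only [mem_union, mem_insert, mem_singleton, mem_image] at this ⊢
      rcases this with (h | h) | h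
      · exact Or.inl (Or.inl ⟨i, hi, h.symm⟩)
      · exact Or.inl (Or.inr ⟨i, hi, h.symm⟩)
      · exact Or.inr h
    have h2 := card_le_card h1
    have h3 := card_union_le ((range r).image x ∪ (range r).image y) I
    have h4 := card_union_le ((range r).image x) ((range r).image y)
    have h5 : ((range r).image x).card ≤ r := by
      have := card_image_le (s := range r) (f := x)
      rwa [card_range] at this
    have h6 : ((range r).image y).card ≤ r := by
      have := card_image_le (s := range r) (f := y)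
      rwa [card_range] at this
    omega
  have hatt : ∀ z : V, ∃ pq : V × V, ∀ i < r, z ∈ Z i → pq.1 = y i ∧ pq.2 = x i := by
    intro z
    by_cases hz : ∃ i < r, z ∈ Z i
    · obtain ⟨i, hi, hzi⟩ := hz
      refine ⟨(y i, x i), ?_⟩
      intro j hj hzj
      have : j = i := by
        by_contra hne
        exact (Finset.disjoint_left.1 (hZ2 j hj i hi hne)) hzj hzi
      rw [this]
      exact ⟨rfl, rfl⟩
    · exact ⟨(z, z), fun i hi hzi => absurd ⟨i, hi, hzi⟩ hz⟩
  choose pq hpq using hatt
  refine assemble (A := A) r (4 * (r * s)) x y P Z (fun z => (pq z).1) (fun z => (pq z).2)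
    hlink hPd hZ2 hPZ (fun i hi j hj _ => hZ3 i hi j hj) ?_ ?_ (by omega) ?_
  · intro i hi z hz
    obtain ⟨h1, h2⟩ := hpq z i hi hz
    simp only [h1, h2]
    exact ⟨(hlink i hi).2.1, (hlink i hi).1⟩
  · intro i hi
    right
    obtain ⟨a, ha, _⟩ := hZ3 i hi i hi
    exact ⟨a, ha, (hpq a i hi ha).1, (hpq a i hi ha).2⟩
  · intro z hz
    rw [mem_biUnion] at hz
    obtain ⟨i, hi, hz⟩ := hz
    rw [mem_range] at hi
    obtain ⟨h1, h2⟩ := hpq z i hi hz
    simp only [h1, h2]
    have hzQ := (hZ1 i hi).1 hz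
    have g1 := gap1 (y i) (hyL i hi) z hzQ
    have g2 := gap2 z hzQ (x i) (hxR i hi)
    have e1 := ex_le_mid hT (y i) z
    have e2 := ex_le_mid hT z (x i)
    have e3 := outdeg_sub (A := A) (y i) z
    have e4 := outdeg_sub (A := A) z (x i)
    have e5 := card_union_le ((range r).biUnion P) ((range r).biUnion Z)
    constructor <;> omega

end crossing

end Pool.Agent.H.MP_0d008e_co
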