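import Pool.Agent.H.MP_0d008e_co.Menger

/-!
# Uncrossing two separations
-/

set_option autoImplicit false

namespace Pool.Agent.H.MP_0d008e_co

open Finset

section uncross

variable {V : Type*} [DecidableEq V] {A : V → V → Prop}

/-- Uncrossing: `(A1, Z1)` is a separation of minimum order of `R1, I1, L1`, `(A2, Z2)` a
separation of `R2, I2, L2`, where the positions move to the right. Then the union is a separation
of `R2, I2, L2` of order at most that of `(A2, Z2)`. -/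
theorem uncross {R1 I1 L1 R2 I2 L2 A1 Z1 A2 Z2 Φ1 Φ2 : Finset V}
    (h1 : SepPair A R1 I1 L1 A1 Z1) (h2 : SepPair A R2 I2 L2 A2 Z2)
    (hmin : ∀ A' Z', SepPair A R1 I1 L1 A' Z' → Z1.card ≤ Z'.card)
    (hW1 : ∀ v, v ∈ R1 ∪ I1 ∪ L1 ↔ v ∉ Φ1) (hW2 : ∀ v, v ∈ R2 ∪ I2 ∪ L2 ↔ v ∉ Φ2)
    (hL : L1 ⊆ L2) (hR : R2 ⊆ R1) (hΦ : Φ1 ⊆ L2) (hA1 : ∀ v ∈ A1, v ∉ Φ2) :
    SepPair A R2 I2 L2 (A1 ∪ A2) ((A1 ∪ A2) \ ((A1 \ Z1) ∪ (A2 \ Z2))) ∧
      ((A1 ∪ A2) \ ((A1 \ Z1) ∪ (A2 \ Z2))).card ≤ Z2.card := by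
  have hsub2 : ∀ v ∈ A2, v ∉ Φ2 := fun v hv => (hW2 v).1 (h2.sub hv)
  have hsub1 : ∀ v ∈ A1, v ∉ Φ1 := fun v hv => (hW1 v).1 (h1.sub hv)
  constructor
  · refine ⟨?_, ?_, ?_, ?_, ?_⟩
    · intro v hv
      rw [hW2]
      rcases mem_union.1 hv with h | h
      · exact hA1 v h
      · exact hsub2 v h
    · exact sdiff_subset
    · exact h2.Lsub.trans subset_union_right
    · intro v hv
      rw [mem_inter] at hv
      refine mem_sdiff.2 ⟨hv.1, ?_⟩
      intro hcon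
      rcases mem_union.1 hcon with h | h
      · obtain ⟨h, h'⟩ := mem_sdiff.1 h
        exact h' (h1.Rsub (mem_inter.2 ⟨h, hR hv.2⟩))
      · obtain ⟨h, h'⟩ := mem_sdiff.1 h
        exact h' (h2.Rsub (mem_inter.2 ⟨h, hv.2⟩))
    · intro u hu v hv
      rw [mem_sdiff] at hu
      have hu1 : u ∉ A1 := fun h => hu.2 (mem_union_left _ h)
      have hu2 : u ∉ A2 := fun h => hu.2 (mem_union_right _ h)
      simp only [mem_sdiff, mem_union, not_and, not_or, not_not] at hv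
      have hv' : (v ∈ A1 ∧ v ∉ Z1) ∨ (v ∈ A2 ∧ v ∉ Z2) := by tauto
      rcases hv' with h | h
      · refine h1.noarc u (mem_sdiff.2 ⟨?_, hu1⟩) v (mem_sdiff.2 h)
        rw [hW1]
        intro h'
        exact hu2 (h2.Lsub (hΦ h'))
      · exact h2.noarc u (mem_sdiff.2 ⟨hu.1, hu2⟩) v (mem_sdiff.2 h)
  · have hint : SepPair A R1 I1 L1 (A1 ∩ A2) ((A1 ∩ A2) \ ((A1 \ Z1) ∩ (A2 \ Z2))) := by
      refine ⟨?_, ?_, ?_, ?_, ?_⟩
      · exact inter_subset_left.trans h1.sub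
      · exact sdiff_subset
      · exact subset_inter h1.Lsub (hL.trans h2.Lsub)
      · intro v hv
        rw [mem_inter, mem_inter] at hv
        refine mem_sdiff.2 ⟨mem_inter.2 hv.1, ?_⟩
        intro hcon
        have h' := (mem_sdiff.1 (mem_inter.1 hcon).1).2
        exact h' (h1.Rsub (mem_inter.2 ⟨hv.1.1, hv.2⟩))
      · intro u hu v hv
        rw [mem_sdiff, mem_inter, not_and] at hu
        simp only [mem_sdiff, mem_inter, not_and, not_not] at hv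
        have hv1 : v ∈ A1 ∧ v ∉ Z1 := by tauto
        have hv2 : v ∈ A2 ∧ v ∉ Z2 := by tauto
        by_cases hu1 : u ∈ A1
        · refine h2.noarc u (mem_sdiff.2 ⟨?_, hu.2 hu1⟩) v (mem_sdiff.2 hv2)
          rw [hW2]
          exact hA1 u hu1
        · exact h1.noarc u (mem_sdiff.2 ⟨hu.1, hu1⟩) v (mem_sdiff.2 hv1)
    have hle := hmin _ _ hint
    set Zu := (A1 ∪ A2) \ ((A1 \ Z1) ∪ (A2 \ Z2)) with hZu
    set Zi := (A1 ∩ A2) \ ((A1 \ Z1) ∩ (A2 \ Z2)) with hZi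
    have e1 : Zu ∪ Zi ⊆ Z1 ∪ Z2 := by
      intro v hv
      simp only [hZu, hZi, mem_union, mem_sdiff, mem_inter, not_or, not_and, not_not] at hv ⊢
      tauto
    have e2 : Zu ∩ Zi ⊆ Z1 ∩ Z2 := by
      intro v hv
      simp only [hZu, hZi, mem_union, mem_sdiff, mem_inter, not_or, not_and, not_not] at hv ⊢
      tauto
    have e3 := card_le_card e1
    have e4 := card_le_card e2
    have e5 := card_union_add_card_inter Zu Zi
    have e6 := card_union_add_card_inter Z1 Z2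
    omega

end uncross

end Pool.Agent.H.MP_0d008e_co
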