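import Pool.Agent.H.MP_0d008e_co.Tangle
import Pool.Agent.H.MP_0d008e_co.Crossing
import Pool.Agent.H.MP_0d008e_co.Uncross

/-!
# The chain of separations and the colouring
-/

set_option autoImplicit false

namespace Pool.Agent.H.MP_0d008e_co

open Finset Relation

/-- Extending a colouring to a new set of vertices using idle colours. -/
theorem extend_coloring {V : Type*} [DecidableEq V] {A : V → V → Prop} {S0 D Zc : Finset V}
    (x N : ℕ) (c cD : V → ℕ) (hc1 : ∀ v ∈ S0, c v < N)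
    (hc2 : ∀ i, Ranked A {v | v ∈ S0 ∧ c v = i}) (himg : (Zc.image c).card + x ≤ N)
    (_hdisj : Disjoint S0 D) (hno : ∀ u ∈ D, ∀ v ∈ S0, v ∉ Zc → ¬ A u v)
    (hD1 : ∀ v ∈ D, cD v < x) (hD2 : ∀ i, Ranked A {v | v ∈ D ∧ cD v = i}) :
    ∃ c' : V → ℕ, (∀ v ∈ S0 ∪ D, c' v < N) ∧ (∀ i, Ranked A {v | v ∈ S0 ∪ D ∧ c' v = i}) ∧
      (D.image c').card ≤ x := by
  classical
  have hidle : x ≤ (range N \ Zc.image c).card := by
    have := le_card_sdiff (Zc.image c) (range N)
    rw [card_range] at this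
    omega
  obtain ⟨J, hJ, hJc⟩ := exists_subset_card_eq hidle
  set φ : Fin x ≃ J := (J.equivFinOfCardEq hJc).symm with hφ
  set ι : ℕ → ℕ := fun k => if h : k < x then (φ ⟨k, h⟩ : ℕ) else 0 with hι
  have hιJ : ∀ k < x, ι k ∈ J := by
    intro k hk
    simp only [hι, hk, dif_pos]
    exact (φ ⟨k, hk⟩).2
  have hιinj : ∀ k < x, ∀ l < x, ι k = ι l → k = l := by
    intro k hk l hl h
    simp only [hι, hk, hl, dif_pos] at h
    have := φ.injective (Subtype.ext h)
    exact congrArg Fin.val this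
  refine ⟨fun v => if v ∈ D then ι (cD v) else c v, ?_, ?_, ?_⟩
  · intro v hv
    by_cases hvD : v ∈ D
    · simp only [hvD, if_true]
      have := hJ (hιJ _ (hD1 v hvD))
      rw [mem_sdiff, mem_range] at this
      exact this.1
    · simp only [hvD, if_false]
      exact hc1 v ((mem_union.1 hv).resolve_right hvD)
  · intro i
    by_cases hi : i ∈ J
    · -- an idle colour
      have hiZ := (mem_sdiff.1 (hJ hi)).2
      have hold : Ranked A ((S0.filter (fun v => c v = i) : Finset V) : Set V) := by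
        refine (hc2 i).mono ?_
        intro v hv
        simpa using hv
      have hnew : Ranked A {v | v ∈ D ∧ ι (cD v) = i} := by
        by_cases hne : ∃ v0 ∈ D, ι (cD v0) = i
        · obtain ⟨v0, hv0, hv0i⟩ := hne
          refine (hD2 (cD v0)).mono ?_
          rintro v ⟨hv, hvi⟩
          exact ⟨hv, hιinj _ (hD1 v hv) _ (hD1 v0 hv0) (hvi.trans hv0i.symm)⟩
        · refine ⟨fun _ => 0, ?_⟩
          rintro a ⟨ha, hai⟩
          exact absurd ⟨a, ha, hai⟩ hne
      refine (hold.union hnew ?_).mono ?_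
      · rintro u ⟨hu, _⟩ v hv
        rw [mem_filter] at hv
        refine hno u hu v hv.1 ?_
        intro hvZ
        exact hiZ (mem_image.2 ⟨v, hvZ, hv.2⟩)
      · rintro v ⟨hv, hvi⟩
        by_cases hvD : v ∈ D
        · right
          simp only [hvD, if_true] at hvi
          exact ⟨hvD, hvi⟩
        · left
          simp only [hvD, if_false] at hvi
          rw [mem_coe, mem_filter]
          exact ⟨(mem_union.1 hv).resolve_right hvD, hvi⟩
    · refine (hc2 i).mono ?_
      rintro v ⟨hv, hvi⟩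
      by_cases hvD : v ∈ D
      · exfalso
        simp only [hvD, if_true] at hvi
        exact hi (hvi ▸ hιJ _ (hD1 v hvD))
      · simp only [hvD, if_false] at hvi
        exact ⟨(mem_union.1 hv).resolve_right hvD, hvi⟩
  · have h1 : D.image (fun v => if v ∈ D then ι (cD v) else c v) ⊆ J := by
      intro k hk
      rw [mem_image] at hk
      obtain ⟨v, hv, hvk⟩ := hk
      simp only [hv, if_true] at hvk
      rw [← hvk]
      exact hιJ _ (hD1 v hv)
    exact (card_le_card h1).trans hJc.le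

section chain

variable {V : Type*} [Fintype V] [DecidableEq V] {A : V → V → Prop} [DecidableRel A]
variable {n : ℕ} (e : V ≃ Fin n)

/-- The vertices in positions `a, ..., b - 1`. -/
def seg (a b : ℕ) : Finset V := univ.filter (fun v => a ≤ (e v : ℕ) ∧ (e v : ℕ) < b)

omit [DecidableEq V] in
theorem mem_seg {a b : ℕ} {v : V} : v ∈ seg e a b ↔ a ≤ (e v : ℕ) ∧ (e v : ℕ) < b := by
  simp [seg]

omit [DecidableEq V] in
theorem card_seg_le (a m : ℕ) : (seg e a (a + m)).card ≤ m := by
  have h : (seg e a (a + m)).card ≤ (Finset.Ico a (a + m)).card := by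
    apply card_le_card_of_injOn (fun v => (e v : ℕ))
    · intro v hv
      rw [mem_coe, mem_seg] at hv
      simpa using hv
    · intro u _ v _ huv
      exact e.injective (Fin.ext huv)
  simpa using h

omit [DecidableEq V] in
theorem card_seg (a m : ℕ) (h : a + m ≤ n) : (seg e a (a + m)).card = m := by
  have h1 : (seg e a (a + m)).card = (Finset.Ico a (a + m)).card := by
    apply card_nbij (fun v => (e v : ℕ))
    · intro v hv
      rw [mem_coe, mem_seg] at hv
      simpa using hv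
    · intro u _ v _ huv
      exact e.injective (Fin.ext huv)
    · intro k hk
      rw [mem_coe, Finset.mem_Ico] at hk
      refine ⟨e.symm ⟨k, by omega⟩, ?_, ?_⟩
      · rw [mem_coe, mem_seg]
        simpa using hk
      · simp
  simpa using h1

omit [DecidableEq V] in
/-- If there is no strong minor, the out-degree drops across every block. -/
theorem gap (hT : IsTournament A) (he : ∀ u v, e u ≤ e v → outdeg A v ≤ outdeg A u) (r s : ℕ)
    (hr : 0 < r) (hs : 0 < s) (hrs : (2 * 7 ^ s) ^ s * r < (8 ^ s) ^ s)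
    (hno : ¬ HasStrongMinor A r) (a : ℕ) (ha : a + 1000 * (r * s) ≤ n) (u v : V)
    (hu : (e u : ℕ) < a) (hv : a + 1000 * (r * s) ≤ (e v : ℕ)) :
    outdeg A v + (6 * (r * s) + 3 * r + 1) ≤ outdeg A u := by
  classical
  have hr' : r ≤ r * s := Nat.le_mul_of_pos_right r hs
  by_contra hcon
  refine hno (tangle hT r s hr hs hrs (seg e a (a + 1000 * (r * s))) (card_seg e _ _ ha).ge ?_)
  intro p hp q hq
  rw [mem_seg] at hp hq
  rw [card_seg e _ _ ha]
  have h1 : outdeg A p ≤ outdeg A u := he u p (Fin.le_def.2 (by omega))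
  have h2 : outdeg A v ≤ outdeg A q := he q v (Fin.le_def.2 (by omega))
  omega

theorem stage_exists (hT : IsTournament A) (he : ∀ u v, e u ≤ e v → outdeg A v ≤ outdeg A u)
    (r s : ℕ) (hr : 0 < r) (hs : 0 < s) (hrs : (2 * 7 ^ s) ^ s * r < (8 ^ s) ^ s)
    (hno : ¬ HasStrongMinor A r) (a : ℕ) (Zp : Finset V) (hZp : Zp.card < r) :
    ∃ A' Z', SepPair A (seg e (a + 3000 * (r * s)) n) (seg e a (a + 3000 * (r * s)) ∩ Zp)
      (seg e 0 a) A' Z' ∧ Z'.card < r := by
  have hr' : r ≤ r * s := Nat.le_mul_of_pos_right r hs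
  by_contra hcon
  push Not at hcon
  -- the right side is nonempty
  have hne : ∃ v0 : V, a + 3000 * (r * s) ≤ (e v0 : ℕ) := by
    by_contra hemp
    push Not at hemp
    have hR : seg e (a + 3000 * (r * s)) n = ∅ := by
      rw [eq_empty_iff_forall_notMem]
      intro v hv
      rw [mem_seg] at hv
      have := hemp v
      omega
    have := hcon (seg e (a + 3000 * (r * s)) n ∪ (seg e a (a + 3000 * (r * s)) ∩ Zp) ∪ seg e 0 a)
      ∅ ⟨Subset.refl _, empty_subset _, subset_union_right, by rw [hR]; simp, by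
        intro u hu
        simp at hu⟩
    simp at this
    omega
  obtain ⟨v0, hv0⟩ := hne
  have hn : a + 3000 * (r * s) < n := lt_of_le_of_lt hv0 (e v0).2
  set Q := seg e (a + 1000 * (r * s)) (a + 1000 * (r * s) + 1000 * (r * s)) \ Zp with hQdef
  have hQc : 16 * (r * s) + 2 ≤ Q.card := by
    have h1 := le_card_sdiff Zp (seg e (a + 1000 * (r * s)) (a + 1000 * (r * s) + 1000 * (r * s)))
    rw [card_seg e _ _ (by omega)] at h1
    rw [hQdef]
    omega
  have hQmem : ∀ v ∈ Q, a + 1000 * (r * s) ≤ (e v : ℕ) ∧ (e v : ℕ) < a + 2000 * (r * s) ∧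
      v ∉ Zp := by
    intro v hv
    rw [hQdef, mem_sdiff, mem_seg] at hv
    exact ⟨hv.1.1, by omega, hv.2⟩
  refine hno (crossing hT r s hr hrs (seg e (a + 3000 * (r * s)) n)
    (seg e a (a + 3000 * (r * s)) ∩ Zp) (seg e 0 a) Q (6 * (r * s) + 3 * r + 1)
    ?_ ?_ ?_ ?_ hQc ?_ ?_ ?_ le_rfl ?_ ?_ hcon)
  · rw [Finset.disjoint_left]
    intro v hv hv'
    rw [mem_seg] at hv
    rw [mem_inter, mem_seg] at hv'
    omega
  · rw [Finset.disjoint_left]
    intro v hv hv'
    rw [mem_seg] at hv hv'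
    omega
  · rw [Finset.disjoint_left]
    intro v hv hv'
    rw [mem_inter, mem_seg] at hv
    rw [mem_seg] at hv'
    omega
  · exact (card_le_card inter_subset_right).trans hZp.le
  · rw [Finset.disjoint_left]
    intro v hv hv'
    have := hQmem v hv
    rw [mem_seg] at hv'
    omega
  · rw [Finset.disjoint_left]
    intro v hv hv'
    exact (hQmem v hv).2.2 (mem_inter.1 hv').2
  · rw [Finset.disjoint_left]
    intro v hv hv'
    have := hQmem v hv
    rw [mem_seg] at hv'
    omega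
  · intro y hy z hz
    rw [mem_seg] at hy
    have := hQmem z hz
    exact gap e hT he r s hr hs hrs hno a (by omega) y z hy.2 this.1
  · intro z hz x hx
    rw [mem_seg] at hx
    have := hQmem z hz
    exact gap e hT he r s hr hs hrs hno (a + 2000 * (r * s)) (by omega) z x this.2.1 (by omega)

theorem stage_min (hT : IsTournament A) (he : ∀ u v, e u ≤ e v → outdeg A v ≤ outdeg A u)
    (r s : ℕ) (hr : 0 < r) (hs : 0 < s) (hrs : (2 * 7 ^ s) ^ s * r < (8 ^ s) ^ s)
    (hno : ¬ HasStrongMinor A r) (a : ℕ) (Zp : Finset V) (hZp : Zp.card < r) :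
    ∃ A' Z', SepPair A (seg e (a + 3000 * (r * s)) n) (seg e a (a + 3000 * (r * s)) ∩ Zp)
      (seg e 0 a) A' Z' ∧ Z'.card < r ∧
      ∀ A'' Z'', SepPair A (seg e (a + 3000 * (r * s)) n) (seg e a (a + 3000 * (r * s)) ∩ Zp)
        (seg e 0 a) A'' Z'' → Z'.card ≤ Z''.card := by
  classical
  obtain ⟨A0, Z0, h0, hZ0⟩ := stage_exists e hT he r s hr hs hrs hno a Zp hZp
  have hex : ∃ k, ∃ A' Z', SepPair A (seg e (a + 3000 * (r * s)) n)
      (seg e a (a + 3000 * (r * s)) ∩ Zp) (seg e 0 a) A' Z' ∧ Z'.card = k := ⟨_, A0, Z0, h0, rfl⟩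
  obtain ⟨A', Z', h', hk⟩ := Nat.find_spec hex
  refine ⟨A', Z', h', ?_, ?_⟩
  · rw [hk]
    exact lt_of_le_of_lt (Nat.find_min' hex ⟨A0, Z0, h0, rfl⟩) hZ0
  · intro A'' Z'' h''
    rw [hk]
    exact Nat.find_min' hex ⟨A'', Z'', h'', rfl⟩

/-- The invariant of the construction. -/
def Inv (A : V → V → Prop) (e : V ≃ Fin n) (r w x a : ℕ) : Prop :=
  ∃ (Zp A' Z' : Finset V) (c : V → ℕ),
    SepPair A (seg e (a + w) n) (seg e a (a + w) ∩ Zp) (seg e 0 a) A' Z' ∧
    (∀ A'' Z'', SepPair A (seg e (a + w) n) (seg e a (a + w) ∩ Zp) (seg e 0 a) A'' Z'' →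
      Z'.card ≤ Z''.card) ∧
    Z'.card < r ∧
    (∀ v ∈ A' ∪ (seg e a (a + w) \ Zp), c v < r + 2 * x) ∧
    (∀ i, Ranked A {v | v ∈ A' ∪ (seg e a (a + w) \ Zp) ∧ c v = i}) ∧
    ((Z' ∪ (seg e a (a + w) \ Zp)).image c).card ≤ r + x

omit [DecidableRel A] in
theorem inv_zero (r w x : ℕ) (hr : 0 < r)
    (hx : ∀ D : Finset V, D.card ≤ 2 * w + r →
      ∃ c : V → ℕ, (∀ v ∈ D, c v < x) ∧ ∀ i, Ranked A {v | v ∈ D ∧ c v = i}) :
    Inv A e r w x 0 := by
  classical
  have hM : (seg e 0 (0 + w)).card ≤ w := card_seg_le e 0 w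
  obtain ⟨c, hc1, hc2⟩ := hx (seg e 0 (0 + w)) (by omega)
  refine ⟨∅, ∅, ∅, c, ⟨empty_subset _, empty_subset _, ?_, ?_, ?_⟩, ?_, ?_, ?_, ?_, ?_⟩
  · intro v hv
    rw [mem_seg] at hv
    omega
  · simp
  · intro u _ v hv
    simp at hv
  · intro _ _ _
    simp
  · simpa using hr
  · intro v hv
    simp only [empty_union, sdiff_empty] at hv
    have := hc1 v hv
    omega
  · intro i
    simp only [empty_union, sdiff_empty]
    exact hc2 i
  · simp only [empty_union, sdiff_empty]
    have h1 : (seg e 0 (0 + w)).image c ⊆ range x := by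
      intro k hk
      rw [mem_image] at hk
      obtain ⟨v, hv, hvk⟩ := hk
      rw [mem_range, ← hvk]
      exact hc1 v hv
    have := card_le_card h1
    rw [card_range] at this
    omega

omit [DecidableRel A] in
theorem inv_step (r w x a : ℕ)
    (hx : ∀ D : Finset V, D.card ≤ 2 * w + r →
      ∃ c : V → ℕ, (∀ v ∈ D, c v < x) ∧ ∀ i, Ranked A {v | v ∈ D ∧ c v = i})
    (hstage : ∀ Zp : Finset V, Zp.card < r →
      ∃ A' Z', SepPair A (seg e (a + w + w) n) (seg e (a + w) (a + w + w) ∩ Zp)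
      (seg e 0 (a + w)) A' Z' ∧ Z'.card < r ∧
      ∀ A'' Z'', SepPair A (seg e (a + w + w) n) (seg e (a + w) (a + w + w) ∩ Zp)
        (seg e 0 (a + w)) A'' Z'' → Z'.card ≤ Z''.card)
    (h : Inv A e r w x a) : Inv A e r w x (a + w) := by
  classical
  obtain ⟨Zp, A1, Z1, c, h1, hmin1, hZ1, hc1, hc2, hc3⟩ := h
  obtain ⟨A2, Z2, h2, hZ2, hmin2⟩ := hstage Z1 hZ1
  set Φ1 := seg e a (a + w) \ Zp with hΦ1
  set Φ2 := seg e (a + w) (a + w + w) \ Z1 with hΦ2
  have hpos : ∀ v : V, (e v : ℕ) < n := fun v => (e v).2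
  have hW1 : ∀ v, v ∈ seg e (a + w) n ∪ (seg e a (a + w) ∩ Zp) ∪ seg e 0 a ↔ v ∉ Φ1 := by
    intro v
    simp only [hΦ1, mem_union, mem_inter, mem_sdiff, mem_seg]
    have := hpos v
    by_cases hv : v ∈ Zp
    · simp only [hv, and_true, not_true_eq_false, and_false, not_false_eq_true, iff_true]
      omega
    · simp only [hv, and_false, or_false, not_false_eq_true, and_true]
      omega
  have hW2 : ∀ v, v ∈ seg e (a + w + w) n ∪ (seg e (a + w) (a + w + w) ∩ Z1) ∪ seg e 0 (a + w) ↔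
      v ∉ Φ2 := by
    intro v
    simp only [hΦ2, mem_union, mem_inter, mem_sdiff, mem_seg]
    have := hpos v
    by_cases hv : v ∈ Z1
    · simp only [hv, and_true, not_true_eq_false, and_false, not_false_eq_true, iff_true]
      omega
    · simp only [hv, and_false, or_false, not_false_eq_true, and_true]
      omega
  have hL : seg e 0 a ⊆ seg e 0 (a + w) := by
    intro v hv
    rw [mem_seg] at hv ⊢
    omega
  have hR : seg e (a + w + w) n ⊆ seg e (a + w) n := by
    intro v hv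
    rw [mem_seg] at hv ⊢
    omega
  have hΦL : Φ1 ⊆ seg e 0 (a + w) := by
    intro v hv
    rw [hΦ1, mem_sdiff, mem_seg] at hv
    rw [mem_seg]
    omega
  have hA1 : ∀ v ∈ A1, v ∉ Φ2 := by
    intro v hv hv'
    rw [hΦ2, mem_sdiff, mem_seg] at hv'
    apply hv'.2
    apply h1.Rsub
    rw [mem_inter, mem_seg]
    exact ⟨hv, hv'.1.1, hpos v⟩
  obtain ⟨h3, h4⟩ := uncross h1 h2 hmin1 hW1 hW2 hL hR hΦL hA1
  set A3 := A1 ∪ A2 with hA3
  set Z3 := A3 \ ((A1 \ Z1) ∪ (A2 \ Z2)) with hZ3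
  -- the new vertices
  set S0 := A1 ∪ Φ1 with hS0
  set D := (A3 ∪ Φ2) \ S0 with hD
  have hS0sub : S0 ⊆ A3 ∪ Φ2 := by
    intro v hv
    rw [hS0, mem_union] at hv
    rw [hA3, mem_union, mem_union]
    rcases hv with h | h
    · exact Or.inl (Or.inl h)
    · exact Or.inl (Or.inr (h2.Lsub (hΦL h)))
  have hS0D : S0 ∪ D = A3 ∪ Φ2 := union_sdiff_of_subset hS0sub
  have hDcard : D.card ≤ 2 * w + r := by
    have hsub : D ⊆ seg e a (a + 2 * w) ∪ Z3 := by
      intro v hv
      rw [hD, mem_sdiff] at hv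
      obtain ⟨hv1, hv2⟩ := hv
      have hva : a ≤ (e v : ℕ) := by
        by_contra hlt
        apply hv2
        rw [hS0, mem_union]
        left
        apply h1.Lsub
        rw [mem_seg]
        omega
      rw [mem_union, mem_seg]
      by_cases hvb : (e v : ℕ) < a + 2 * w
      · exact Or.inl ⟨hva, hvb⟩
      · right
        have hvR : v ∈ seg e (a + w + w) n := by
          rw [mem_seg]
          have := hpos v
          omega
        rcases mem_union.1 hv1 with h | h
        · exact h3.Rsub (mem_inter.2 ⟨h, hvR⟩)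
        · rw [hΦ2, mem_sdiff, mem_seg] at h
          omega
    have e1 := card_le_card hsub
    have e2 := card_union_le (seg e a (a + 2 * w)) Z3
    have e3 := card_seg_le e a (2 * w)
    omega
  obtain ⟨cD, hcD1, hcD2⟩ := hx D hDcard
  obtain ⟨c', hc'1, hc'2, hc'3⟩ := extend_coloring (A := A) (S0 := S0) (D := D) (Zc := Z1 ∪ Φ1)
    x (r + 2 * x) c cD hc1 hc2 (by omega) (by rw [hD]; exact disjoint_sdiff) (by
      intro u hu v hv hvZ
      rw [mem_union, not_or] at hvZ
      have hvA1 : v ∈ A1 := by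
        rw [hS0, mem_union] at hv
        exact hv.resolve_right hvZ.2
      rw [hD] at hu
      have hu2 := (mem_sdiff.1 hu).2
      rw [hS0, mem_union, not_or] at hu2
      refine h1.noarc u (mem_sdiff.2 ⟨(hW1 u).2 hu2.2, hu2.1⟩) v (mem_sdiff.2 ⟨hvA1, hvZ.1⟩))
    hcD1 hcD2
  rw [hS0D] at hc'1 hc'2
  refine ⟨Z1, A3, Z3, c', h3, ?_, by omega, hc'1, hc'2, ?_⟩
  · intro A'' Z'' h''
    exact h4.trans (hmin2 A'' Z'' h'')
  · have hΦD : Φ2 ⊆ D := by
      intro v hv
      rw [hD, mem_sdiff]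
      refine ⟨mem_union_right _ hv, ?_⟩
      rw [hS0, mem_union, not_or]
      constructor
      · intro hvA
        exact hA1 v hvA hv
      · intro hvΦ
        rw [hΦ2, mem_sdiff, mem_seg] at hv
        rw [hΦ1, mem_sdiff, mem_seg] at hvΦ
        omega
    have e1 : (Z3 ∪ Φ2).image c' ⊆ Z3.image c' ∪ D.image c' := by
      rw [image_union]
      exact union_subset_union_right (image_subset_image hΦD)
    have e2 := card_le_card e1
    have e3 := card_union_le (Z3.image c') (D.image c')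
    have e4 : (Z3.image c').card ≤ Z3.card := card_image_le
    show ((Z3 ∪ Φ2).image c').card ≤ r + x
    omega

/-- The main bound, for a given linear order by out-degrees. -/
theorem main_bound_aux (hT : IsTournament A)
    (he : ∀ u v, e u ≤ e v → outdeg A v ≤ outdeg A u)
    (r s : ℕ) (hr : 0 < r) (hs : 0 < s) (hrs : (2 * 7 ^ s) ^ s * r < (8 ^ s) ^ s)
    (hno : ¬ HasStrongMinor A r) (x : ℕ)
    (hx : ∀ D : Finset V, D.card ≤ 6000 * (r * s) + r →
      ∃ c : V → ℕ, (∀ v ∈ D, c v < x) ∧ ∀ i, Ranked A {v | v ∈ D ∧ c v = i}) :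
    Colorable A (r + 2 * x) := by
  classical
  set w := 3000 * (r * s) with hw
  have hwpos : 0 < w := by
    have : 0 < r * s := Nat.mul_pos hr hs
    omega
  have hx' : ∀ D : Finset V, D.card ≤ 2 * w + r →
      ∃ c : V → ℕ, (∀ v ∈ D, c v < x) ∧ ∀ i, Ranked A {v | v ∈ D ∧ c v = i} := by
    intro D hD
    exact hx D (by omega)
  have hInv : ∀ t : ℕ, Inv A e r w x (t * w) := by
    intro t
    induction t with
    | zero =>
      rw [Nat.zero_mul]
      exact inv_zero e r w x hr hx'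
    | succ t ih =>
      have e1 : (t + 1) * w = t * w + w := by ring
      rw [e1]
      refine inv_step e r w x (t * w) hx' ?_ ih
      intro Zp hZp
      exact stage_min e hT he r s hr hs hrs hno (t * w + w) Zp hZp
  obtain ⟨Zp, A', Z', c, h1, -, -, hc1, hc2, -⟩ := hInv n
  have hall : ∀ v : V, v ∈ A' ∪ (seg e (n * w) (n * w + w) \ Zp) := by
    intro v
    rw [mem_union]
    left
    apply h1.Lsub
    rw [mem_seg]
    have h2 : (e v : ℕ) < n := (e v).2
    have h3 : n * 1 ≤ n * w := Nat.mul_le_mul_left _ hwpos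
    omega
  refine ⟨fun v => ⟨c v, hc1 v (hall v)⟩, ?_⟩
  rintro ⟨i, hi⟩
  apply Ranked.acyclic
  refine (hc2 i).mono ?_
  intro v hv
  have hv' : (⟨c v, hc1 v (hall v)⟩ : Fin (r + 2 * x)) = ⟨i, hi⟩ := hv
  exact ⟨hall v, congrArg Fin.val hv'⟩

end chain

end Pool.Agent.H.MP_0d008e_co
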