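import Mathlib

/-!
# Dichromatic number and strong complete minors: definitions
-/

set_option autoImplicit false

namespace Pool.Agent.H.MP_0d008e_co

open Relation

/-- `A` is the arc relation of a tournament on `V`: no loops, and exactly one arc between any two
distinct vertices. -/
structure IsTournament {V : Type*} (A : V → V → Prop) : Prop where
  irrefl : ∀ v, ¬ A v v
  asymm : ∀ u v, A u v → ¬ A v u
  total : ∀ u v, u ≠ v → A u v ∨ A v u

/-- The arcs of the subdigraph induced by the vertex set `X`. -/
def Induced {V : Type*} (A : V → V → Prop) (X : Set V) (u v : V) : Prop :=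
  u ∈ X ∧ v ∈ X ∧ A u v

/-- The subdigraph induced by `X` is strongly connected: from every vertex of `X` there is a
directed path inside `X` to every vertex of `X`. -/
def StronglyConnected {V : Type*} (A : V → V → Prop) (X : Set V) : Prop :=
  ∀ u ∈ X, ∀ v ∈ X, ReflTransGen (Induced A X) u v

/-- The subdigraph induced by `X` has no directed cycle. -/
def Acyclic {V : Type*} (A : V → V → Prop) (X : Set V) : Prop :=
  ∀ v, ¬ TransGen (Induced A X) v v

/-- The vertex set can be partitioned into `k` (possibly empty) sets, each inducing a subdigraph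
with no directed cycle. -/
def Colorable {V : Type*} (A : V → V → Prop) (k : ℕ) : Prop :=
  ∃ c : V → Fin k, ∀ i, Acyclic A {v | c v = i}

/-- The dichromatic number. -/
noncomputable def dichromatic {V : Type*} (A : V → V → Prop) : ℕ := sInf {k | Colorable A k}

/-- The digraph contains a strong complete minor with `r` branch sets: pairwise disjoint nonempty
sets `X 0, ..., X (r-1)`, each inducing a strongly connected subdigraph, with an arc from `X i` to
`X j` for every ordered pair `i ≠ j`. -/
def HasStrongMinor {V : Type*} (A : V → V → Prop) (r : ℕ) : Prop :=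
  ∃ X : Fin r → Set V, (∀ i, (X i).Nonempty) ∧ (∀ i, StronglyConnected A (X i)) ∧
    (∀ i j, i ≠ j → Disjoint (X i) (X j)) ∧ ∀ i j, i ≠ j → ∃ u ∈ X i, ∃ v ∈ X j, A u v

/-- `sm`: the largest `r` such that the digraph contains a strong complete minor with `r` branch
sets. -/
noncomputable def sm {V : Type*} (A : V → V → Prop) : ℕ := sSup {r | HasStrongMinor A r}

/-- The `k` such that every (finite) tournament `T` with `χ(T) ≥ k` satisfies `sm(T) ≥ r`. -/
def Forcing (r : ℕ) : Set ℕ :=
  {k | ∀ (n : ℕ) (A : Fin n → Fin n → Prop), IsTournament A → k ≤ dichromatic A → r ≤ sm A}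

/-- `g r`: the least `k` such that every tournament `T` with `χ(T) ≥ k` satisfies `sm(T) ≥ r`. -/
noncomputable def g (r : ℕ) : ℕ := sInf (Forcing r)

end Pool.Agent.H.MP_0d008e_co
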