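import Pool.Agent.H.MP_0d008e_co.Lower

/-!
# Numerics
-/

set_option autoImplicit false

namespace Pool.Agent.H.MP_0d008e_co

open Filter Topology

/-- The explicit upper bound. -/
theorem g_le_real (r : ℕ) (hr : 2 ≤ r) :
    (g r : ℝ) ≤ r + 1000000 * r / √(Real.log r) := by
  set l := Nat.log 2 r with hl
  have hl1 : 1 ≤ l := Nat.log_pos (by norm_num) hr
  have hlow : 2 ^ l ≤ r := Nat.pow_log_le_self 2 (by omega)
  have hup : r < 2 ^ (l + 1) := Nat.lt_pow_succ_log_self (by norm_num) r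
  set q := Nat.sqrt l + 1 with hq
  set K := (l + 1) / 2 with hK
  have hK0 : 0 < K := by omega
  have hqsq : l + 1 ≤ q ^ 2 := by
    have h := Nat.lt_succ_sqrt l
    have h' : l < q * q := h
    nlinarith
  have hrq : r ≤ 2 ^ (q ^ 2) := hup.le.trans (Nat.pow_le_pow_right (by norm_num) hqsq)
  have hg := g_le r q K (by omega) (by omega) hK0 hrq
  -- real quantities
  set s : ℝ := √(l : ℝ) with hs
  have hlR : (1 : ℝ) ≤ l := by exact_mod_cast hl1
  have hs1 : 1 ≤ s := by
    rw [hs]
    exact Real.one_le_sqrt.2 hlR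
  have hs0 : 0 < s := by linarith
  have hss : s * s = l := Real.mul_self_sqrt (by linarith)
  have hrR : (2 : ℝ) ≤ r := by exact_mod_cast hr
  have hr0 : (0 : ℝ) < r := by linarith
  have hqR : (q : ℝ) ≤ s + 1 := by
    have : (Nat.sqrt l : ℝ) ≤ s := Real.nat_sqrt_le_real_sqrt
    rw [hq]
    push_cast
    linarith
  have hKR : (l : ℝ) / 2 ≤ K := by
    have h : l ≤ 2 * K := by omega
    have h' : (l : ℝ) ≤ 2 * K := by exact_mod_cast h
    linarith
  have hK0R : (0 : ℝ) < K := by exact_mod_cast hK0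
  -- first term
  set N : ℕ := 6000 * (r * (6 * (q + 1))) + r with hN
  have hNR : (N : ℝ) ≤ 108001 * (r * s) := by
    have h1 : (N : ℝ) = r * (36000 * (q + 1) + 1) := by
      rw [hN]
      push_cast
      ring
    rw [h1]
    have h2 : (36000 * ((q : ℝ) + 1) + 1) ≤ 108001 * s := by nlinarith
    calc (r : ℝ) * (36000 * (q + 1) + 1) ≤ r * (108001 * s) :=
          mul_le_mul_of_nonneg_left h2 hr0.le
      _ = 108001 * (r * s) := by ring
  have hT1 : ((N / K : ℕ) : ℝ) ≤ 216002 * (r / s) := by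
    calc ((N / K : ℕ) : ℝ) ≤ (N : ℝ) / K := Nat.cast_div_le
      _ ≤ (108001 * (r * s)) / (l / 2) :=
          div_le_div₀ (by positivity) hNR (by linarith) hKR
      _ = 216002 * (r / s) := by
          rw [← hss]
          field_simp
          ring
  have hT2 : ((2 ^ K : ℕ) : ℝ) ≤ 4 * (r / s) := by
    have h1 : 2 ^ K * K ≤ 2 * r := by
      calc 2 ^ K * K ≤ 2 ^ K * 2 ^ K := Nat.mul_le_mul_left _ Nat.lt_two_pow_self.le
        _ = 2 ^ (K + K) := by rw [pow_add]
        _ ≤ 2 ^ (l + 1) := Nat.pow_le_pow_right (by norm_num) (by omega)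
        _ = 2 * 2 ^ l := by rw [pow_succ]; ring
        _ ≤ 2 * r := Nat.mul_le_mul_left _ hlow
    have h2 : ((2 ^ K : ℕ) : ℝ) * K ≤ 2 * r := by exact_mod_cast h1
    have h3 : ((2 ^ K : ℕ) : ℝ) ≤ 2 * r / K := by
      rw [le_div_iff₀ hK0R]
      exact h2
    calc ((2 ^ K : ℕ) : ℝ) ≤ 2 * r / K := h3
      _ ≤ 2 * r / (l / 2) := div_le_div_of_nonneg_left (by positivity) (by linarith) hKR
      _ ≤ 2 * r / (s / 2) := by
          apply div_le_div_of_nonneg_left (by positivity) (by linarith)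
          nlinarith
      _ = 4 * (r / s) := by
          field_simp
          ring
  have hT3 : (1 : ℝ) ≤ r / s := by
    rw [le_div_iff₀ hs0]
    have h1 : l ≤ r := Nat.lt_two_pow_self.le.trans hlow
    have h2 : (l : ℝ) ≤ r := by exact_mod_cast h1
    nlinarith
  have hmain : (g r : ℝ) ≤ r + 432013 * (r / s) := by
    have h1 : (g r : ℝ) ≤ ((ub r q K + 1 : ℕ) : ℝ) := by exact_mod_cast hg
    have h2 : ((ub r q K + 1 : ℕ) : ℝ) = r + 2 * (((N / K : ℕ) : ℝ) + ((2 ^ K : ℕ) : ℝ)) + 1 := by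
      simp only [ub, em]
      rw [← hN]
      push_cast
      ring
    rw [h2] at h1
    linarith
  -- compare with the logarithm
  have hlog0 : 0 < Real.log r := Real.log_pos (by linarith)
  have hlog : Real.log r ≤ 2 * l := by
    have h1 : (r : ℝ) ≤ 2 ^ (l + 1) := by exact_mod_cast hup.le
    have h2 : Real.log r ≤ Real.log (2 ^ (l + 1)) := Real.log_le_log hr0 h1
    rw [Real.log_pow] at h2
    have h3 : Real.log 2 ≤ 1 := by
      have := Real.log_two_lt_d9
      linarith
    have h4 : ((l + 1 : ℕ) : ℝ) * Real.log 2 ≤ ((l + 1 : ℕ) : ℝ) * 1 :=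
      mul_le_mul_of_nonneg_left h3 (Nat.cast_nonneg _)
    push_cast at h4 h2
    linarith
  have hsq : √(Real.log r) ≤ 2 * s := by
    rw [Real.sqrt_le_left (by linarith)]
    nlinarith
  have hsq0 : 0 < √(Real.log r) := Real.sqrt_pos.2 hlog0
  have hfin : 432013 * ((r : ℝ) / s) ≤ 1000000 * r / √(Real.log r) := by
    rw [le_div_iff₀ hsq0]
    have h1 : (r : ℝ) / s * √(Real.log r) ≤ r / s * (2 * s) :=
      mul_le_mul_of_nonneg_left hsq (by positivity)
    have h2 : (r : ℝ) / s * (2 * s) = 2 * r := by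
      field_simp
    nlinarith
  linarith

theorem tendsto_ratio : Tendsto (fun r : ℕ => (g r : ℝ) / r) atTop (𝓝 1) := by
  have h1 : Tendsto (fun r : ℕ => 1 + 1000000 / √(Real.log (r : ℝ))) atTop (𝓝 1) := by
    have h2 : Tendsto (fun r : ℕ => √(Real.log (r : ℝ))) atTop atTop :=
      Real.tendsto_sqrt_atTop.comp (Real.tendsto_log_atTop.comp tendsto_natCast_atTop_atTop)
    have h3 := h2.const_div_atTop (1000000 : ℝ)
    have h4 := h3.const_add (1 : ℝ)
    rw [add_zero] at h4
    exact h4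
  refine tendsto_of_tendsto_of_tendsto_of_le_of_le' tendsto_const_nhds h1 ?_ ?_
  · filter_upwards [eventually_ge_atTop 2] with r hr
    have hr0 : (0 : ℝ) < r := by
      have : (2 : ℝ) ≤ r := by exact_mod_cast hr
      linarith
    rw [le_div_iff₀ hr0, one_mul]
    have h := lower r hr
    have h' : r ≤ g r := by omega
    exact_mod_cast h'
  · filter_upwards [eventually_ge_atTop 2] with r hr
    have hr0 : (0 : ℝ) < r := by
      have : (2 : ℝ) ≤ r := by exact_mod_cast hr
      linarith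
    rw [div_le_iff₀ hr0]
    have h := g_le_real r hr
    calc (g r : ℝ) ≤ r + 1000000 * r / √(Real.log r) := h
      _ = (1 + 1000000 / √(Real.log r)) * r := by ring

end Pool.Agent.H.MP_0d008e_co
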