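import Pool.Agent.H.MP_0d008e_co.Bound

/-!
# The lower bound
-/

set_option autoImplicit false

namespace Pool.Agent.H.MP_0d008e_co

open Finset Relation

theorem acyclic_comap {V W : Type*} {A : V → V → Prop} {B : W → W → Prop} (ι : V → W)
    (hι : ∀ a b, A a b → B (ι a) (ι b)) {X : Set V} {Y : Set W} (hXY : ∀ v ∈ X, ι v ∈ Y)
    (h : Acyclic B Y) : Acyclic A X := by
  intro v hv
  have key : ∀ a b, TransGen (Induced A X) a b → TransGen (Induced B Y) (ι a) (ι b) := by
    intro a b hab
    induction hab with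
    | single h => exact TransGen.single ⟨hXY _ h.1, hXY _ h.2.1, hι _ _ h.2.2⟩
    | tail _ h ih => exact ih.tail ⟨hXY _ h.1, hXY _ h.2.1, hι _ _ h.2.2⟩
  exact h _ (key v v hv)

theorem minor_pullback {V W : Type*} {A : V → V → Prop} {B : W → W → Prop} (ι : V → W)
    (hinj : Function.Injective ι) (hι : ∀ a b, B (ι a) (ι b) ↔ A a b) {m : ℕ} (Y : Fin m → Set W)
    (hY : ∀ i, ∀ w ∈ Y i, ∃ v, ι v = w) (hne : ∀ i, (Y i).Nonempty)
    (hsc : ∀ i, StronglyConnected B (Y i)) (hd : ∀ i j, i ≠ j → Disjoint (Y i) (Y j))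
    (harc : ∀ i j, i ≠ j → ∃ u ∈ Y i, ∃ v ∈ Y j, B u v) : HasStrongMinor A m := by
  refine ⟨fun i => {v | ι v ∈ Y i}, ?_, ?_, ?_, ?_⟩
  · intro i
    obtain ⟨w, hw⟩ := hne i
    obtain ⟨v, hv⟩ := hY i w hw
    exact ⟨v, by show ι v ∈ Y i; rw [hv]; exact hw⟩
  · intro i a ha b hb
    have key : ∀ w, ReflTransGen (Induced B (Y i)) (ι a) w →
        ∀ b, ι b = w → ReflTransGen (Induced A {v | ι v ∈ Y i}) a b := by
      intro w hw
      induction hw with
      | refl =>
        intro b hb
        rw [hinj hb]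
      | @tail c d _ hcd ih =>
        intro b hb
        obtain ⟨c', hc'⟩ := hY i c hcd.1
        refine (ih c' hc').tail ⟨?_, ?_, ?_⟩
        · show ι c' ∈ Y i
          rw [hc']; exact hcd.1
        · show ι b ∈ Y i
          rw [hb]; exact hcd.2.1
        · rw [← hι, hc', hb]; exact hcd.2.2
    exact key _ (hsc i _ ha _ hb) b rfl
  · intro i j hij
    rw [Set.disjoint_left]
    intro v hv hv'
    exact (Set.disjoint_left.1 (hd i j hij)) hv hv'
  · intro i j hij
    obtain ⟨u, hu, v, hv, huv⟩ := harc i j hij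
    obtain ⟨u', hu'⟩ := hY i u hu
    obtain ⟨v', hv'⟩ := hY j v hv
    refine ⟨u', ?_, v', ?_, ?_⟩
    · show ι u' ∈ Y i
      rw [hu']; exact hu
    · show ι v' ∈ Y j
      rw [hv']; exact hv
    · rw [← hι, hu', hv']; exact huv

/-- The tournament with vertex set a point `f` and two copies `A₁`, `A₂` of `A`, and the further
arcs `f → A₁ → A₂ → f`. -/
def stp {V : Type*} (A : V → V → Prop) : (Unit ⊕ (V ⊕ V)) → (Unit ⊕ (V ⊕ V)) → Prop
  | Sum.inl _, Sum.inl _ => False
  | Sum.inl _, Sum.inr (Sum.inl _) => True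
  | Sum.inl _, Sum.inr (Sum.inr _) => False
  | Sum.inr (Sum.inl _), Sum.inl _ => False
  | Sum.inr (Sum.inl a), Sum.inr (Sum.inl b) => A a b
  | Sum.inr (Sum.inl _), Sum.inr (Sum.inr _) => True
  | Sum.inr (Sum.inr _), Sum.inl _ => True
  | Sum.inr (Sum.inr _), Sum.inr (Sum.inl _) => False
  | Sum.inr (Sum.inr a), Sum.inr (Sum.inr b) => A a b

theorem stp_tournament {V : Type*} {A : V → V → Prop} (hT : IsTournament A) :
    IsTournament (stp A) := by
  refine ⟨?_, ?_, ?_⟩
  · rintro (u | u | u)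
    · exact fun h => h
    · exact hT.irrefl u
    · exact hT.irrefl u
  · rintro (u | u | u) (v | v | v) h
    · exact fun h => h
    · exact fun h => h
    · exact absurd h (fun h => h)
    · exact absurd h (fun h => h)
    · exact hT.asymm u v h
    · exact fun h => h
    · exact fun h => h
    · exact absurd h (fun h => h)
    · exact hT.asymm u v h
  · rintro (u | u | u) (v | v | v) h
    · exact absurd rfl h
    · exact Or.inl trivial
    · exact Or.inr trivial
    · exact Or.inr trivial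
    · exact hT.total u v (fun e => h (by rw [e]))
    · exact Or.inl trivial
    · exact Or.inl trivial
    · exact Or.inr trivial
    · exact hT.total u v (fun e => h (by rw [e]))

theorem stp_colorable {V : Type*} {A : V → V → Prop} {k : ℕ} (h : Colorable (stp A) (k + 1)) :
    Colorable A k := by
  obtain ⟨c, hc⟩ := h
  set c0 := c (Sum.inl ()) with hc0
  -- one of the copies avoids the colour c0
  have hside : ∃ ι : V → Unit ⊕ (V ⊕ V), (∀ a b, A a b → stp A (ι a) (ι b)) ∧
      ∀ a, c (ι a) ≠ c0 := by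
    by_cases h1 : ∀ a, c (Sum.inr (Sum.inl a)) ≠ c0
    · exact ⟨fun a => Sum.inr (Sum.inl a), fun a b h => h, h1⟩
    · by_cases h2 : ∀ a, c (Sum.inr (Sum.inr a)) ≠ c0
      · exact ⟨fun a => Sum.inr (Sum.inr a), fun a b h => h, h2⟩
      · exfalso
        push Not at h1 h2
        obtain ⟨a, ha⟩ := h1
        obtain ⟨b, hb⟩ := h2
        apply hc c0 (Sum.inl ())
        have m0 : Sum.inl () ∈ {v | c v = c0} := rfl
        have m1 : Sum.inr (Sum.inl a) ∈ {v | c v = c0} := ha
        have m2 : Sum.inr (Sum.inr b) ∈ {v | c v = c0} := hb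
        have t1 : Induced (stp A) {v | c v = c0} (Sum.inl ()) (Sum.inr (Sum.inl a)) :=
          ⟨m0, m1, trivial⟩
        have t2 : Induced (stp A) {v | c v = c0} (Sum.inr (Sum.inl a)) (Sum.inr (Sum.inr b)) :=
          ⟨m1, m2, trivial⟩
        have t3 : Induced (stp A) {v | c v = c0} (Sum.inr (Sum.inr b)) (Sum.inl ()) :=
          ⟨m2, m0, trivial⟩
        exact ((TransGen.single t1).tail t2).tail t3
  obtain ⟨ι, hι, hne⟩ := hside
  have hex : ∀ a, ∃ j : Fin k, c0.succAbove j = c (ι a) := fun a =>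
    Fin.exists_succAbove_eq (hne a)
  choose c' hc' using hex
  refine ⟨c', ?_⟩
  intro i
  refine acyclic_comap ι hι ?_ (hc (c0.succAbove i))
  intro v hv
  show c (ι v) = c0.succAbove i
  rw [← hc' v]
  have : c' v = i := hv
  rw [this]

theorem stp_minor {V : Type*} {A : V → V → Prop} {m : ℕ} (h : HasStrongMinor (stp A) (m + 1)) :
    HasStrongMinor A m := by
  classical
  obtain ⟨X, hne, hsc, hd, harc⟩ := h
  -- drop the set containing the extra vertex
  have hdrop : ∃ i0 : Fin (m + 1), ∀ j, j ≠ i0 → Sum.inl () ∉ X j := by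
    by_cases hf : ∃ i0, Sum.inl () ∈ X i0
    · obtain ⟨i0, hi0⟩ := hf
      exact ⟨i0, fun j hj hj' => (Set.disjoint_left.1 (hd j i0 hj)) hj' hi0⟩
    · push Not at hf
      exact ⟨0, fun j _ => hf j⟩
  obtain ⟨i0, hi0⟩ := hdrop
  set Y : Fin m → Set (Unit ⊕ (V ⊕ V)) := fun j => X (i0.succAbove j) with hY
  have hYf : ∀ j, Sum.inl () ∉ Y j := fun j => hi0 _ (Fin.succAbove_ne i0 j)
  have hYne : ∀ j, (Y j).Nonempty := fun j => hne _
  have hYsc : ∀ j, StronglyConnected (stp A) (Y j) := fun j => hsc _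
  have hYd : ∀ i j, i ≠ j → Disjoint (Y i) (Y j) := fun i j hij =>
    hd _ _ (fun e => hij (Fin.succAbove_right_injective e))
  have hYarc : ∀ i j, i ≠ j → ∃ u ∈ Y i, ∃ v ∈ Y j, stp A u v := fun i j hij =>
    harc _ _ (fun e => hij (Fin.succAbove_right_injective e))
  -- no path from the right copy to the left copy avoiding the extra vertex
  have hright : ∀ j (b : V) w, ReflTransGen (Induced (stp A) (Y j)) (Sum.inr (Sum.inr b)) w →
      ∃ b', w = Sum.inr (Sum.inr b') := by
    intro j b w hw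
    induction hw with
    | refl => exact ⟨b, rfl⟩
    | @tail c d _ hcd ih =>
      obtain ⟨c', hc'⟩ := ih
      rw [hc'] at hcd
      obtain ⟨h1, h2, h3⟩ := hcd
      rcases d with d | d | d
      · exact absurd h2 (hYf j)
      · exact absurd h3 (fun h => h)
      · exact ⟨d, rfl⟩
  have hcases : ∀ j, (∀ w ∈ Y j, ∃ a, w = Sum.inr (Sum.inl a)) ∨
      (∀ w ∈ Y j, ∃ a, w = Sum.inr (Sum.inr a)) := by
    intro j
    by_cases hr : ∃ b, Sum.inr (Sum.inr b) ∈ Y j
    · obtain ⟨b, hb⟩ := hr
      right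
      intro w hw
      exact hright j b w (hYsc j _ hb _ hw)
    · left
      intro w hw
      rcases w with w | w | w
      · exact absurd hw (hYf j)
      · exact ⟨w, rfl⟩
      · exact absurd ⟨w, hw⟩ hr
  by_cases hall : ∀ j, ∀ w ∈ Y j, ∃ a, w = Sum.inr (Sum.inl a)
  · refine minor_pullback (fun a => Sum.inr (Sum.inl a)) ?_ (fun a b => Iff.rfl) Y ?_ hYne hYsc
      hYd hYarc
    · intro a b hab
      exact Sum.inl_injective (Sum.inr_injective hab)
    · intro i w hw
      obtain ⟨a, ha⟩ := hall i w hw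
      exact ⟨a, ha.symm⟩
  · push Not at hall
    obtain ⟨j0, w0, hw0, hw0'⟩ := hall
    have hj0 : ∀ w ∈ Y j0, ∃ a, w = Sum.inr (Sum.inr a) := by
      rcases hcases j0 with h | h
      · obtain ⟨a, ha⟩ := h w0 hw0
        exact absurd ha (hw0' a)
      · exact h
    have hall' : ∀ j, ∀ w ∈ Y j, ∃ a, w = Sum.inr (Sum.inr a) := by
      intro j
      by_cases hj : j = j0
      · rw [hj]; exact hj0
      · rcases hcases j with h | h
        · exfalso
          obtain ⟨u, hu, v, hv, huv⟩ := hYarc j0 j (fun e => hj e.symm)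
          obtain ⟨a, ha⟩ := hj0 u hu
          obtain ⟨b, hb⟩ := h v hv
          rw [ha, hb] at huv
          exact huv
        · exact h
    refine minor_pullback (fun a => Sum.inr (Sum.inr a)) ?_ (fun a b => Iff.rfl) Y ?_ hYne hYsc
      hYd hYarc
    · intro a b hab
      exact Sum.inr_injective (Sum.inr_injective hab)
    · intro i w hw
      obtain ⟨a, ha⟩ := hall' i w hw
      exact ⟨a, ha.symm⟩

/-- The cyclic triangle. -/
def tri (a b : Fin 3) : Prop := b = a + 1

instance : DecidableRel tri := fun a b => by unfold tri; infer_instance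

theorem tri_tournament : IsTournament tri := by
  refine ⟨?_, ?_, ?_⟩
  · decide
  · decide
  · decide

theorem tri_not_colorable : ¬ Colorable tri 1 := by
  rintro ⟨c, hc⟩
  have hall : ∀ v, v ∈ {v | c v = 0} := fun v => Subsingleton.elim _ _
  apply hc 0 0
  have t : ∀ a b, tri a b → Induced tri {v | c v = 0} a b := fun a b h => ⟨hall a, hall b, h⟩
  exact ((TransGen.single (t 0 1 (by decide))).tail (t 1 2 (by decide))).tail (t 2 0 (by decide))

theorem fin3_aux : ∀ u u' : Fin 3, u ≠ u' + 1 ∨ u' ≠ u + 1 := by decide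

theorem tri_no_minor : ¬ HasStrongMinor tri 2 := by
  rintro ⟨X, hne, hsc, hd, harc⟩
  -- a strongly connected set containing two distinct vertices has out-neighbours inside
  have hout : ∀ i, ∀ p ∈ X i, ∀ q ∈ X i, p ≠ q → p + 1 ∈ X i := by
    intro i p hp q hq hpq
    rcases ReflTransGen.cases_head (hsc i p hp q hq) with h | ⟨c, h, _⟩
    · exact absurd h hpq
    · have : c = p + 1 := h.2.2
      rw [← this]; exact h.2.1
  obtain ⟨u, hu, v, hv, huv⟩ := harc 0 1 (by decide)
  obtain ⟨u', hu', v', hv', huv'⟩ := harc 1 0 (by decide)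
  have hv1 : v = u + 1 := huv
  have hv2 : v' = u' + 1 := huv'
  have hd01 := Set.disjoint_left.1 (hd 0 1 (by decide))
  subst hv1
  subst hv2
  -- u, u'+1 ∈ X 0, u+1, u' ∈ X 1
  rcases fin3_aux u u' with h | h
  · have h1 := hout 0 u hu _ hv' h
    exact hd01 h1 hv
  · have h1 := hout 1 u' hu' _ hv h
    exact hd01 hv' h1

theorem exists_lower (k : ℕ) : ∃ (V : Type) (_ : Fintype V) (A : V → V → Prop),
    IsTournament A ∧ ¬ Colorable A (k + 1) ∧ ¬ HasStrongMinor A (k + 2) := by
  induction k with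
  | zero => exact ⟨Fin 3, inferInstance, tri, tri_tournament, tri_not_colorable, tri_no_minor⟩
  | succ k ih =>
    obtain ⟨V, hV, A, h1, h2, h3⟩ := ih
    exact ⟨Unit ⊕ (V ⊕ V), inferInstance, stp A, stp_tournament h1, fun h => h2 (stp_colorable h),
      fun h => h3 (stp_minor h)⟩

theorem Colorable.mono {V : Type*} {A : V → V → Prop} {k l : ℕ} (h : Colorable A k) (hkl : k ≤ l) :
    Colorable A l := by
  obtain ⟨c, hc⟩ := h
  refine ⟨fun v => Fin.castLE hkl (c v), ?_⟩
  intro i
  by_cases hi : (i : ℕ) < k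
  · refine acyclic_comap id (fun _ _ h => h) ?_ (hc ⟨i, hi⟩)
    intro v hv
    have : Fin.castLE hkl (c v) = i := hv
    show c v = ⟨i, hi⟩
    apply Fin.ext
    have h2 := congrArg Fin.val this
    exact h2
  · have hemp : ∀ v, ¬ (Fin.castLE hkl (c v) = i) := by
      intro v hv
      apply hi
      rw [← hv]
      exact (c v).2
    intro v hv
    rcases TransGen.head'_iff.1 hv with ⟨w, hw, _⟩
    exact hemp v hw.1

theorem colorable_card {n : ℕ} {A : Fin n → Fin n → Prop} (hT : IsTournament A) :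
    Colorable A n := by
  refine ⟨id, ?_⟩
  intro i
  apply Ranked.acyclic
  refine (ranked_singleton hT i).mono ?_
  intro v hv
  exact hv

theorem colorable_dichromatic {n : ℕ} {A : Fin n → Fin n → Prop} (hT : IsTournament A) :
    Colorable A (dichromatic A) := Nat.sInf_mem (⟨n, colorable_card hT⟩ : {k | Colorable A k}.Nonempty)

theorem HasStrongMinor.mono {V : Type*} {A : V → V → Prop} {k l : ℕ} (h : HasStrongMinor A l)
    (hkl : k ≤ l) : HasStrongMinor A k := by
  obtain ⟨X, h1, h2, h3, h4⟩ := h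
  have hne : ∀ i j : Fin k, i ≠ j → Fin.castLE hkl i ≠ Fin.castLE hkl j := fun i j hij e =>
    hij (Fin.castLE_injective hkl e)
  exact ⟨fun i => X (Fin.castLE hkl i), fun i => h1 _, fun i => h2 _,
    fun i j hij => h3 _ _ (hne i j hij), fun i j hij => h4 _ _ (hne i j hij)⟩

/-- The lower bound `r + 1 ≤ g r` for `r ≥ 2`. -/
theorem lower (r : ℕ) (hr : 2 ≤ r) : r + 1 ≤ g r := by
  obtain ⟨k, rfl⟩ : ∃ k, r = k + 2 := ⟨r - 2, by omega⟩
  obtain ⟨V, hV, A, hT, h2, h3⟩ := exists_lower k
  set e : V ≃ Fin (Fintype.card V) := Fintype.equivFin V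
  set B : Fin (Fintype.card V) → Fin (Fintype.card V) → Prop := fun a b => A (e.symm a) (e.symm b)
    with hB
  have hBT : IsTournament B := by
    refine ⟨fun v => hT.irrefl _, fun u v h => hT.asymm _ _ h, fun u v huv => hT.total _ _ ?_⟩
    intro h
    exact huv (e.symm.injective h)
  have hB2 : ¬ Colorable B (k + 1) := by
    rintro ⟨c, hc⟩
    apply h2
    refine ⟨fun v => c (e v), fun i => acyclic_comap e ?_ ?_ (hc i)⟩
    · intro a b hab
      show A (e.symm (e a)) (e.symm (e b))
      rw [Equiv.symm_apply_apply, Equiv.symm_apply_apply]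
      exact hab
    · intro v hv
      exact hv
  have hB3 : ¬ HasStrongMinor B (k + 2) := by
    rintro ⟨X, hne, hsc, hd, harc⟩
    apply h3
    refine minor_pullback e e.injective ?_ X ?_ hne hsc hd harc
    · intro a b
      show A (e.symm (e a)) (e.symm (e b)) ↔ A a b
      rw [Equiv.symm_apply_apply, Equiv.symm_apply_apply]
    · intro i w _
      exact ⟨e.symm w, e.apply_symm_apply w⟩
  by_contra hcon
  push Not at hcon
  have hmem := (isLeast_g (k + 2)).1
  have h4 : g (k + 2) ≤ dichromatic B := by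
    by_contra hlt
    push Not at hlt
    exact hB2 ((colorable_dichromatic hBT).mono (by omega))
  have h5 := hmem _ B hBT h4
  have h6 : sm B ≤ k + 1 := by
    refine csSup_le ⟨0, ?_⟩ ?_
    · exact ⟨fun i => i.elim0, fun i => i.elim0, fun i => i.elim0, fun i => i.elim0,
        fun i => i.elim0⟩
    · intro m hm
      by_contra hlt
      push Not at hlt
      exact hB3 (HasStrongMinor.mono hm (by omega))
  omega

end Pool.Agent.H.MP_0d008e_co
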