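import Pool.Agent.H.MP_0d008e_co.Basic

/-!
# Selecting disjoint small sets with arcs in both directions between any two of them
-/

set_option autoImplicit false

namespace Pool.Agent.H.MP_0d008e_co

open Finset

/-- Greedy choice of disjoint sets. -/
theorem exists_disjoint_family {V : Type*} [DecidableEq V] (Pr : ℕ → Finset V → Prop)
    (m B : ℕ) (U0 : Finset V)
    (h : ∀ (i : ℕ) (U : Finset V), U.card ≤ B → ∃ X, Disjoint X U ∧ X.card ≤ m ∧ Pr i X) :
    ∀ r : ℕ, U0.card + r * m ≤ B → ∃ X : ℕ → Finset V,
      (∀ i < r, Pr i (X i) ∧ (X i).card ≤ m ∧ Disjoint (X i) U0) ∧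
      ∀ i < r, ∀ j < r, i ≠ j → Disjoint (X i) (X j) := by
  intro r
  induction r with
  | zero =>
    intro _
    exact ⟨fun _ => ∅, fun i hi => absurd hi (Nat.not_lt_zero _),
      fun i hi => absurd hi (Nat.not_lt_zero _)⟩
  | succ r ih =>
    intro hB
    have hexp : (r + 1) * m = r * m + m := by ring
    obtain ⟨X, hX1, hX2⟩ := ih (by omega)
    set U : Finset V := U0 ∪ (range r).biUnion X with hU
    have hUc : U.card ≤ B := by
      have h1 : ((range r).biUnion X).card ≤ ∑ i ∈ range r, (X i).card := card_biUnion_le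
      have h2 : ∑ i ∈ range r, (X i).card ≤ ∑ i ∈ range r, m :=
        sum_le_sum (fun i hi => (hX1 i (mem_range.1 hi)).2.1)
      rw [sum_const, card_range, smul_eq_mul] at h2
      have h3 := card_union_le U0 ((range r).biUnion X)
      rw [hU]
      omega
    obtain ⟨Y, hY1, hY2, hY3⟩ := h r U hUc
    have hYU0 : Disjoint Y U0 := hY1.mono_right (by rw [hU]; exact subset_union_left)
    have hYX : ∀ i < r, Disjoint Y (X i) := by
      intro i hi
      refine hY1.mono_right ?_
      rw [hU]
      exact (subset_biUnion_of_mem X (mem_range.2 hi)).trans subset_union_right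
    refine ⟨Function.update X r Y, ?_, ?_⟩
    · intro i hi
      by_cases hir : i = r
      · rw [hir, Function.update_self]
        exact ⟨hY3, hY2, hYU0⟩
      · rw [Function.update_of_ne hir]
        exact hX1 i (by omega)
    · intro i hi j hj hij
      by_cases hir : i = r
      · have hjr : j ≠ r := fun h => hij (hir.trans h.symm)
        rw [hir, Function.update_self, Function.update_of_ne hjr]
        exact hYX j (by omega)
      · rw [Function.update_of_ne hir]
        by_cases hjr : j = r
        · rw [hjr, Function.update_self]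
          exact (hYX i (by omega)).symm
        · rw [Function.update_of_ne hjr]
          exact hX2 i (by omega) j (by omega) hij

/-- Greedy choice of distinct representatives. -/
theorem exists_distinct {ι V : Type*} [DecidableEq ι] [DecidableEq V] [Nonempty V]
    (C : ι → Finset V) (F : Finset V) (n : ℕ) (s : Finset ι) (hn : s.card ≤ n)
    (h : ∀ i ∈ s, n + F.card ≤ (C i).card) :
    ∃ f : ι → V, Set.InjOn f (s : Set ι) ∧ ∀ i ∈ s, f i ∈ C i ∧ f i ∉ F := by
  classical
  induction s using Finset.induction_on with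
  | empty => exact ⟨fun _ => Classical.arbitrary V, by simp, by simp⟩
  | @insert a s ha ih =>
    rw [card_insert_of_notMem ha] at hn
    obtain ⟨f, hf1, hf2⟩ := ih (by omega) (fun i hi => h i (mem_insert_of_mem hi))
    have hlt : (s.image f ∪ F).card < (C a).card := by
      have h1 := card_union_le (s.image f) F
      have h2 : (s.image f).card ≤ s.card := card_image_le
      have h3 := h a (mem_insert_self _ _)
      omega
    obtain ⟨v, hv1, hv2⟩ := exists_mem_notMem_of_card_lt_card hlt
    rw [mem_union, not_or] at hv2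
    refine ⟨Function.update f a v, ?_, ?_⟩
    · intro i hi j hj hij
      rw [coe_insert, Set.mem_insert_iff, mem_coe] at hi hj
      by_cases hia : i = a
      · by_cases hja : j = a
        · rw [hia, hja]
        · exfalso
          rw [hia, Function.update_self, Function.update_of_ne hja] at hij
          exact hv2.1 (mem_image.2 ⟨j, hj.resolve_left hja, hij.symm⟩)
      · by_cases hja : j = a
        · exfalso
          rw [hja, Function.update_self, Function.update_of_ne hia] at hij
          exact hv2.1 (mem_image.2 ⟨i, hi.resolve_left hia, hij⟩)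
        · rw [Function.update_of_ne hia, Function.update_of_ne hja] at hij
          exact hf1 (hi.resolve_left hia) (hj.resolve_left hja) hij
    · intro i hi
      by_cases hia : i = a
      · rw [hia, Function.update_self]
        exact ⟨hv1, hv2.2⟩
      · rw [Function.update_of_ne hia]
        exact hf2 i ((mem_insert.1 hi).resolve_left hia)

section sel

variable {V : Type*} [DecidableEq V] {A : V → V → Prop} [DecidableRel A]

/-- Two halves with at least half of the arcs going from the first to the second one. -/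
theorem exists_halves (hT : IsTournament A) (Q : Finset V) (h : ℕ) (hQ : 2 * h ≤ Q.card) :
    ∃ E F : Finset V, E ⊆ Q ∧ F ⊆ Q ∧ Disjoint E F ∧ E.card = h ∧ F.card = h ∧
      h * h ≤ 2 * ∑ b ∈ F, (E.filter (fun a => A a b)).card := by
  obtain ⟨E, hE, hEc⟩ := exists_subset_card_eq (show h ≤ Q.card by omega)
  obtain ⟨F, hF, hFc⟩ := exists_subset_card_eq (show h ≤ (Q \ E).card by
    rw [card_sdiff_of_subset hE]; omega)
  have hEF : Disjoint E F := by
    rw [Finset.disjoint_left]
    intro v hv hv'
    exact (mem_sdiff.1 (hF hv')).2 hv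
  have hFQ : F ⊆ Q := hF.trans sdiff_subset
  have h1 : ∑ b ∈ F, (E.filter (fun a => A a b)).card +
      ∑ a ∈ E, (F.filter (fun b => A b a)).card = h * h := by
    have e1 : ∑ a ∈ E, (F.filter (fun b => A b a)).card =
        ∑ b ∈ F, (E.filter (fun a => A b a)).card := by
      simp only [card_filter]
      exact sum_comm
    rw [e1, ← sum_add_distrib]
    have e2 : ∀ b ∈ F, (E.filter (fun a => A a b)).card + (E.filter (fun a => A b a)).card = h := by
      intro b hb
      rw [← card_union_of_disjoint, ← hEc]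
      · congr 1
        ext a
        simp only [mem_union, mem_filter]
        constructor
        · tauto
        · intro ha
          have hne : a ≠ b := by
            intro hab
            rw [hab] at ha
            exact (Finset.disjoint_left.1 hEF) ha hb
          rcases hT.total a b hne with h | h
          · exact Or.inl ⟨ha, h⟩
          · exact Or.inr ⟨ha, h⟩
      · rw [Finset.disjoint_left]
        intro a ha ha'
        exact hT.asymm _ _ (mem_filter.1 ha).2 (mem_filter.1 ha').2
    rw [sum_congr rfl e2, sum_const, smul_eq_mul, hFc]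
  rcases le_total (∑ a ∈ E, (F.filter (fun b => A b a)).card)
    (∑ b ∈ F, (E.filter (fun a => A a b)).card) with hle | hle
  · exact ⟨E, F, hE, hFQ, hEF, hEc, hFc, by omega⟩
  · exact ⟨F, E, hFQ, hE, hEF.symm, hFc, hEc, by omega⟩

/-- Many vertices of the second half have many in-neighbours in the first half. -/
theorem exists_good_halves (hT : IsTournament A) (Q : Finset V) (h : ℕ) (hQ : 2 * h ≤ Q.card)
    (hh : 0 < h) :
    ∃ E F : Finset V, E ⊆ Q ∧ F ⊆ Q ∧ Disjoint E F ∧ E.card = h ∧ h ≤ 3 * F.card ∧
      ∀ b ∈ F, h ≤ 4 * (E.filter (fun a => A a b)).card := by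
  obtain ⟨E, F, hE, hF, hEF, hEc, hFc, hsum⟩ := exists_halves hT Q h hQ
  set F' := F.filter (fun b => h ≤ 4 * (E.filter (fun a => A a b)).card) with hF'
  refine ⟨E, F', hE, (filter_subset _ _).trans hF, hEF.mono_right (filter_subset _ _), hEc, ?_,
    fun b hb => (mem_filter.1 hb).2⟩
  have h1 : ∑ b ∈ F, (E.filter (fun a => A a b)).card =
      ∑ b ∈ F', (E.filter (fun a => A a b)).card +
      ∑ b ∈ F.filter (fun b => ¬ h ≤ 4 * (E.filter (fun a => A a b)).card),
        (E.filter (fun a => A a b)).card := by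
    have := sum_filter_add_sum_filter_not F
      (fun b => h ≤ 4 * (E.filter (fun a => A a b)).card)
      (fun b => (E.filter (fun a => A a b)).card)
    exact this.symm
  have h2 : ∑ b ∈ F', (E.filter (fun a => A a b)).card ≤ F'.card * h := by
    rw [← smul_eq_mul, ← sum_const]
    apply sum_le_sum
    intro b _
    rw [← hEc]
    exact card_le_card (filter_subset _ _)
  have h3 : 4 * ∑ b ∈ F.filter (fun b => ¬ h ≤ 4 * (E.filter (fun a => A a b)).card),
        (E.filter (fun a => A a b)).card ≤
      (F.filter (fun b => ¬ h ≤ 4 * (E.filter (fun a => A a b)).card)).card * h := by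
    rw [mul_sum, ← smul_eq_mul (a := _), ← sum_const]
    apply sum_le_sum
    intro b hb
    have := (mem_filter.1 hb).2
    omega
  have h4 : F'.card + (F.filter (fun b => ¬ h ≤ 4 * (E.filter (fun a => A a b)).card)).card = h := by
    have h0 := card_filter_add_card_filter_not (s := F)
      (fun b => h ≤ 4 * (E.filter (fun a => A a b)).card)
    rw [hFc] at h0
    exact h0
  set x := F'.card
  set y := (F.filter (fun b => ¬ h ≤ 4 * (E.filter (fun a => A a b)).card)).card
  set s1 := ∑ b ∈ F', (E.filter (fun a => A a b)).card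
  set s2 := ∑ b ∈ F.filter (fun b => ¬ h ≤ 4 * (E.filter (fun a => A a b)).card),
        (E.filter (fun a => A a b)).card
  have h5 : h * h ≤ 3 * x * h := by
    have e1 : (x + y) * h = h * h := by rw [h4]
    nlinarith [h1, h2, h3, hsum]
  exact Nat.le_of_mul_le_mul_right h5 hh

/-- One greedy step. -/
theorem step_out {E F : Finset V} {h : ℕ} (hh : 0 < h) (hEc : E.card = h)
    (hF : ∀ b ∈ F, h ≤ 4 * (E.filter (fun a => A a b)).card) (U D : Finset V)
    (hU : 8 * U.card ≤ h) (hD : D ⊆ F) :
    ∃ a ∈ E \ U, D.card ≤ 8 * (D.filter (fun b => A a b)).card := by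
  by_contra hcon
  push Not at hcon
  have h1 : 8 * ∑ a ∈ E \ U, (D.filter (fun b => A a b)).card < (E \ U).card * D.card := by
    rw [mul_sum, ← smul_eq_mul (a := (E \ U).card), ← sum_const]
    apply sum_lt_sum_of_nonempty
    · have : (E \ U).card ≥ h - U.card := by
        rw [← hEc]; exact le_card_sdiff U E
      rw [← card_pos]
      omega
    · intro a ha
      exact hcon a ha
  have h2 : ∑ a ∈ E \ U, (D.filter (fun b => A a b)).card =
      ∑ b ∈ D, ((E \ U).filter (fun a => A a b)).card := by
    simp only [card_filter]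
    exact sum_comm
  have h3 : D.card * h ≤ 8 * ∑ b ∈ D, ((E \ U).filter (fun a => A a b)).card := by
    rw [mul_sum, ← smul_eq_mul (a := D.card), ← sum_const]
    apply sum_le_sum
    intro b hb
    have h4 := hF b (hD hb)
    have h5 : (E.filter (fun a => A a b)).card ≤
        ((E \ U).filter (fun a => A a b)).card + U.card := by
      refine (card_le_card ?_).trans (card_union_le _ _)
      intro a ha
      rw [mem_filter] at ha
      rw [mem_union, mem_filter, mem_sdiff]
      by_cases haU : a ∈ U
      · exact Or.inr haU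
      · exact Or.inl ⟨⟨ha.1, haU⟩, ha.2⟩
    omega
  have h6 : (E \ U).card ≤ h := by rw [← hEc]; exact card_le_card sdiff_subset
  have h7 : (E \ U).card * D.card ≤ h * D.card := Nat.mul_le_mul_right _ h6
  rw [h2] at h1
  nlinarith

/-- `s` greedy steps. -/
theorem exists_dominating {E F : Finset V} {h : ℕ} (hh : 0 < h) (hEc : E.card = h)
    (hF : ∀ b ∈ F, h ≤ 4 * (E.filter (fun a => A a b)).card) (U : Finset V)
    (hU : 8 * U.card ≤ h) :
    ∀ s : ℕ, ∃ X : Finset V, X ⊆ E ∧ Disjoint X U ∧ X.card ≤ s ∧
      8 ^ s * (F.filter (fun b => ∀ a ∈ X, ¬ A a b)).card ≤ 7 ^ s * F.card := by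
  intro s
  induction s with
  | zero =>
    refine ⟨∅, empty_subset _, disjoint_empty_left _, le_rfl, ?_⟩
    simp
  | succ s ih =>
    obtain ⟨X, hX1, hX2, hX3, hX4⟩ := ih
    set D := F.filter (fun b => ∀ a ∈ X, ¬ A a b) with hD
    obtain ⟨a, ha, hDa⟩ := step_out hh hEc hF U D hU (filter_subset _ _)
    rw [mem_sdiff] at ha
    refine ⟨insert a X, ?_, ?_, ?_, ?_⟩
    · exact insert_subset ha.1 hX1
    · rw [disjoint_insert_left]
      exact ⟨ha.2, hX2⟩
    · exact (card_insert_le _ _).trans (by omega)
    · have e1 : F.filter (fun b => ∀ a' ∈ insert a X, ¬ A a' b) =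
          D.filter (fun b => ¬ A a b) := by
        ext b
        simp only [mem_filter, mem_insert, forall_eq_or_imp, hD]
        tauto
      have e2 : (D.filter (fun b => A a b)).card + (D.filter (fun b => ¬ A a b)).card = D.card :=
        card_filter_add_card_filter_not _
      rw [e1]
      have e3 : 8 * (D.filter (fun b => ¬ A a b)).card ≤ 7 * D.card := by omega
      calc 8 ^ (s + 1) * (D.filter (fun b => ¬ A a b)).card
          = 8 ^ s * (8 * (D.filter (fun b => ¬ A a b)).card) := by ring
        _ ≤ 8 ^ s * (7 * D.card) := Nat.mul_le_mul_left _ e3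
        _ = 7 * (8 ^ s * D.card) := by ring
        _ ≤ 7 * (7 ^ s * F.card) := Nat.mul_le_mul_left _ hX4
        _ = 7 ^ (s + 1) * F.card := by ring

omit [DecidableRel A] in
/-- A small set not contained in any of the small sets `D i`. -/
theorem exists_escaping {F : Finset V} (r s : ℕ) (D : ℕ → Finset V)
    (hD : ∀ i < r, 8 ^ s * (D i).card ≤ 7 ^ s * F.card) (U : Finset V)
    (hU : 2 * U.card ≤ F.card) (hF : 0 < F.card) :
    ∀ n : ℕ, ∃ Y : Finset V, Y ⊆ F ∧ Disjoint Y U ∧ Y.card ≤ n ∧
      (8 ^ s) ^ n * ((range r).filter (fun i => Y ⊆ D i)).card ≤ (2 * 7 ^ s) ^ n * r := by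
  intro n
  induction n with
  | zero =>
    refine ⟨∅, empty_subset _, disjoint_empty_left _, le_rfl, ?_⟩
    simp
  | succ n ih =>
    obtain ⟨Y, hY1, hY2, hY3, hY4⟩ := ih
    set I := (range r).filter (fun i => Y ⊆ D i) with hI
    have hstep : ∃ b ∈ F \ U, 8 ^ s * (I.filter (fun i => b ∈ D i)).card ≤ 2 * 7 ^ s * I.card := by
      by_contra hcon
      push Not at hcon
      have hFU : F.card ≤ 2 * (F \ U).card := by
        have : F.card - U.card ≤ (F \ U).card := le_card_sdiff U F
        omega
      have h1 : (F \ U).card * (2 * 7 ^ s * I.card) <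
          ∑ b ∈ F \ U, 8 ^ s * (I.filter (fun i => b ∈ D i)).card := by
        rw [← smul_eq_mul (a := (F \ U).card), ← sum_const]
        apply sum_lt_sum_of_nonempty
        · rw [← card_pos]; omega
        · intro b hb; exact hcon b hb
      have h2 : ∑ b ∈ F \ U, 8 ^ s * (I.filter (fun i => b ∈ D i)).card =
          ∑ i ∈ I, 8 ^ s * ((F \ U).filter (fun b => b ∈ D i)).card := by
        rw [← mul_sum, ← mul_sum]
        congr 1
        simp only [card_filter]
        exact sum_comm
      have h3 : ∑ i ∈ I, 8 ^ s * ((F \ U).filter (fun b => b ∈ D i)).card ≤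
          ∑ i ∈ I, 7 ^ s * F.card := by
        apply sum_le_sum
        intro i hi
        have hir : i < r := mem_range.1 (mem_filter.1 hi).1
        refine le_trans ?_ (hD i hir)
        apply Nat.mul_le_mul_left
        apply card_le_card
        intro b hb
        exact (mem_filter.1 hb).2
      rw [sum_const, smul_eq_mul] at h3
      have h4 : I.card * (7 ^ s * F.card) ≤ I.card * (7 ^ s * (2 * (F \ U).card)) :=
        Nat.mul_le_mul_left _ (Nat.mul_le_mul_left _ hFU)
      have h5 : I.card * (7 ^ s * (2 * (F \ U).card)) = (F \ U).card * (2 * 7 ^ s * I.card) := by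
        ring
      omega
    obtain ⟨b, hb, hbI⟩ := hstep
    rw [mem_sdiff] at hb
    refine ⟨insert b Y, insert_subset hb.1 hY1, ?_, (card_insert_le _ _).trans (by omega), ?_⟩
    · rw [disjoint_insert_left]
      exact ⟨hb.2, hY2⟩
    · have e1 : (range r).filter (fun i => insert b Y ⊆ D i) = I.filter (fun i => b ∈ D i) := by
        ext i
        simp only [mem_filter, hI, insert_subset_iff]
        tauto
      rw [e1]
      calc (8 ^ s) ^ (n + 1) * (I.filter (fun i => b ∈ D i)).card
          = (8 ^ s) ^ n * (8 ^ s * (I.filter (fun i => b ∈ D i)).card) := by ring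
        _ ≤ (8 ^ s) ^ n * (2 * 7 ^ s * I.card) := Nat.mul_le_mul_left _ hbI
        _ = 2 * 7 ^ s * ((8 ^ s) ^ n * I.card) := by ring
        _ ≤ 2 * 7 ^ s * ((2 * 7 ^ s) ^ n * r) := Nat.mul_le_mul_left _ hY4
        _ = (2 * 7 ^ s) ^ (n + 1) * r := by ring

/-- The selection lemma: `r` disjoint subsets of `Q` of size at most `2 s`, with an arc from `Z i`
to `Z j` for all `i ≠ j` (and nonempty). -/
theorem exists_selection (hT : IsTournament A) (r s : ℕ)
    (hrs : (2 * 7 ^ s) ^ s * r < (8 ^ s) ^ s) (Q : Finset V) (hQ : 16 * (r * s) + 2 ≤ Q.card) :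
    ∃ Z : ℕ → Finset V, (∀ i < r, Z i ⊆ Q ∧ (Z i).card ≤ 2 * s) ∧
      (∀ i < r, ∀ j < r, i ≠ j → Disjoint (Z i) (Z j)) ∧
      ∀ i < r, ∀ j < r, ∃ a ∈ Z i, ∃ b ∈ Z j, A a b := by
  set h : ℕ := 8 * (r * s) + 1 with hh
  obtain ⟨E, F, hE, hF, hEF, hEc, hFc, hd⟩ := exists_good_halves hT Q h (by omega) (by omega)
  -- the sets A_i
  obtain ⟨X, hX1, hX2⟩ := exists_disjoint_family
    (fun _ X => X ⊆ E ∧ 8 ^ s * (F.filter (fun b => ∀ a ∈ X, ¬ A a b)).card ≤ 7 ^ s * F.card)
    s (r * s) (∅ : Finset V) (by
      intro i U hU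
      obtain ⟨X, h1, h2, h3, h4⟩ := exists_dominating (A := A) (by omega) hEc hd U (by omega) s
      exact ⟨X, h2, h3, h1, h4⟩) r (by simp)
  -- the sets B_i
  set D : ℕ → Finset V := fun i => F.filter (fun b => ∀ a ∈ X i, ¬ A a b) with hD
  obtain ⟨Y, hY1, hY2⟩ := exists_disjoint_family
    (fun _ Y => Y ⊆ F ∧ ∀ i < r, ¬ Y ⊆ D i) s (r * s) (∅ : Finset V) (by
      intro i U hU
      obtain ⟨Y, h1, h2, h3, h4⟩ := exists_escaping (F := F) r s D
        (fun i hi => (hX1 i hi).1.2) U (by omega) (by omega) s
      refine ⟨Y, h2, h3, h1, ?_⟩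
      intro i hi hYD
      have h5 : 0 < ((range r).filter (fun i => Y ⊆ D i)).card :=
        card_pos.2 ⟨i, mem_filter.2 ⟨mem_range.2 hi, hYD⟩⟩
      have h6 : (8 ^ s) ^ s * 1 ≤ (8 ^ s) ^ s * ((range r).filter (fun i => Y ⊆ D i)).card :=
        Nat.mul_le_mul_left _ h5
      omega) r (by simp)
  refine ⟨fun i => X i ∪ Y i, ?_, ?_, ?_⟩
  · intro i hi
    obtain ⟨⟨h1, _⟩, h2, _⟩ := hX1 i hi
    obtain ⟨⟨h3, _⟩, h4, _⟩ := hY1 i hi
    refine ⟨union_subset (h1.trans hE) (h3.trans hF), ?_⟩
    have h5 := card_union_le (X i) (Y i)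
    exact h5.trans (by omega)
  · intro i hi j hj hij
    have hXY : ∀ i < r, ∀ j < r, Disjoint (X i) (Y j) := by
      intro i hi j hj
      exact (hEF.mono_left (hX1 i hi).1.1).mono_right (hY1 j hj).1.1
    rw [disjoint_union_left, disjoint_union_right, disjoint_union_right]
    exact ⟨⟨hX2 i hi j hj hij, hXY i hi j hj⟩, (hXY j hj i hi).symm, hY2 i hi j hj hij⟩
  · intro i hi j hj
    have h1 := (hY1 j hj).1.2 i hi
    rw [Finset.not_subset] at h1
    obtain ⟨b, hb1, hb2⟩ := h1
    have hbF : b ∈ F := (hY1 j hj).1.1 hb1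
    simp only [hD, mem_filter, not_and, not_forall, not_not] at hb2
    obtain ⟨a, ha, hab⟩ := hb2 hbF
    exact ⟨a, mem_union_left _ ha, b, mem_union_right _ hb1, hab⟩

end sel

end Pool.Agent.H.MP_0d008e_co
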