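import Pool.Agent.H.MP_0d008e_co.Assemble

/-!
# A large set of vertices with almost equal out-degrees gives a large strong complete minor
-/

set_option autoImplicit false

namespace Pool.Agent.H.MP_0d008e_co

open Finset Relation

section tangle

variable {V : Type*} [Fintype V] [DecidableEq V] {A : V → V → Prop} [DecidableRel A]

omit [Fintype V] in
theorem sum_out (hT : IsTournament A) (N : Finset V) :
    2 * ∑ b ∈ N, (N.filter (fun u => A b u)).card + N.card = N.card * N.card := by
  have h1 : ∑ b ∈ N, (N.filter (fun u => A b u)).card =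
      ∑ b ∈ N, (N.filter (fun u => A u b)).card := by
    simp only [card_filter]
    exact sum_comm
  have h2 : ∑ b ∈ N, ((N.filter (fun u => A b u)).card + (N.filter (fun u => A u b)).card + 1) =
      ∑ b ∈ N, N.card := sum_congr rfl (fun b hb => card_out_add_in hT N hb)
  rw [sum_add_distrib, sum_add_distrib, sum_const, sum_const, smul_eq_mul, smul_eq_mul, mul_one]
    at h2
  omega

/-- In every set `M` there is, for each `a`, a vertex whose out-neighbourhood differs a lot from
that of `a`. -/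
theorem exists_far (hT : IsTournament A) (M : Finset V) (hM : 2 ≤ M.card) {a : V} (ha : a ∈ M) :
    ∃ b ∈ M, M.card ≤ 4 * (ex A a b + ex A b a) := by
  by_contra hcon
  push Not at hcon
  set N := M.filter (fun u => A a u) with hN
  set N' := M.filter (fun u => ¬ A a u) with hN'
  have hsum : N.card + N'.card = M.card := card_filter_add_card_filter_not _
  have h1 := sum_out hT N
  have h2 := sum_out hT N'
  have haN' : a ∈ N' := mem_filter.2 ⟨ha, hT.irrefl a⟩
  have hN'pos : 0 < N'.card := card_pos.2 ⟨a, haN'⟩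
  -- lower bound inside N
  have h3 : N.card * (4 * N.card) ≤ 4 * ∑ b ∈ N, (N.filter (fun u => A b u)).card +
      N.card * (M.card - 1) := by
    have q1 : N.card * (4 * N.card) = ∑ _b ∈ N, 4 * N.card := by rw [sum_const, smul_eq_mul]
    have q2 : N.card * (M.card - 1) = ∑ _b ∈ N, (M.card - 1) := by rw [sum_const, smul_eq_mul]
    rw [mul_sum, q1, q2, ← sum_add_distrib]
    apply sum_le_sum
    intro b hb
    have hb' := hcon b (mem_filter.1 hb).1
    have h4 : N.card ≤ (N.filter (fun u => A b u)).card + ex A a b := by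
      rw [← card_filter_add_card_filter_not (s := N) (fun u => A b u)]
      apply Nat.add_le_add_left
      apply card_le_card
      intro u hu
      simp only [mem_filter, hN, mem_univ, true_and] at hu ⊢
      exact ⟨hu.1.2, hu.2⟩
    omega
  -- upper bound inside N'
  have h5 : 4 * ∑ b ∈ N', (N'.filter (fun u => A b u)).card ≤ N'.card * (M.card - 1) := by
    rw [mul_sum, ← smul_eq_mul (a := N'.card), ← sum_const]
    apply sum_le_sum
    intro b hb
    have hb' := hcon b (mem_filter.1 hb).1
    have h4 : (N'.filter (fun u => A b u)).card ≤ ex A b a := by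
      apply card_le_card
      intro u hu
      simp only [mem_filter, hN', mem_univ, true_and] at hu ⊢
      exact ⟨hu.2, hu.1.2⟩
    omega
  set n := N.card
  set n' := N'.card
  set m := M.card
  set s := ∑ b ∈ N, (N.filter (fun u => A b u)).card
  set s' := ∑ b ∈ N', (N'.filter (fun u => A b u)).card
  obtain ⟨k, hk⟩ : ∃ k, m = k + 1 := ⟨m - 1, by omega⟩
  rw [hk, Nat.add_sub_cancel] at h3 h5
  -- 2 n' ≤ k + 2
  have h6 : 2 * n' ≤ k + 2 := by
    have : n' * (2 * n') ≤ n' * (k + 2) := by nlinarith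
    exact Nat.le_of_mul_le_mul_left this hN'pos
  rcases Nat.eq_zero_or_pos n with hn | hn
  · omega
  · have h7 : 2 * n + 2 ≤ k := by
      have : n * (2 * n + 2) ≤ n * k := by nlinarith
      exact Nat.le_of_mul_le_mul_left this hn
    omega

/-- A large set of vertices with almost equal out-degrees gives a strong complete minor. -/
theorem tangle (hT : IsTournament A) (r s : ℕ) (hr : 0 < r) (hs : 0 < s)
    (hrs : (2 * 7 ^ s) ^ s * r < (8 ^ s) ^ s) (M : Finset V) (hM : 1000 * (r * s) ≤ M.card)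
    (hdeg : ∀ a ∈ M, ∀ b ∈ M, 32 * outdeg A a ≤ 32 * outdeg A b + M.card) :
    HasStrongMinor A r := by
  classical
  have hr' : r ≤ r * s := Nat.le_mul_of_pos_right r hs
  have hMne : M.Nonempty := by rw [← card_pos]; omega
  obtain ⟨v0, hv0⟩ := hMne
  have : Nonempty V := ⟨v0⟩
  -- dist large implies many 2-paths in both directions
  have hfar : ∀ a ∈ M, ∀ b ∈ M, M.card ≤ 16 * (ex A a b + ex A b a) →
      M.card ≤ 64 * ex A a b := by
    intro a ha b hb h
    have h1 := outdeg_sub (A := A) a b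
    have h2 := hdeg a ha b hb
    have h3 := hdeg b hb a ha
    omega
  -- the pairs
  obtain ⟨Pr, hPr1, hPr2⟩ := exists_disjoint_family
    (fun _ X => ∃ a ∈ M, ∃ b ∈ M, X = {a, b} ∧ M.card ≤ 8 * (ex A a b + ex A b a))
    2 (2 * r) (∅ : Finset V) (by
      intro i U hU
      have h1 : M.card - U.card ≤ (M \ U).card := le_card_sdiff U M
      have h2 : (M \ U).Nonempty := by rw [← card_pos]; omega
      obtain ⟨a, ha⟩ := h2
      obtain ⟨b, hb, hab⟩ := exists_far hT (M \ U) (by omega) ha
      rw [mem_sdiff] at ha hb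
      refine ⟨{a, b}, ?_, card_le_two, a, ha.1, b, hb.1, rfl, by omega⟩
      rw [Finset.disjoint_left]
      intro v hv
      rw [mem_insert, mem_singleton] at hv
      rcases hv with h | h
      · rw [h]; exact ha.2
      · rw [h]; exact hb.2) r (by simp; omega)
  have hPr1' : ∀ i, ∃ ab : V × V, i < r → (ab.1 ∈ M ∧ ab.2 ∈ M ∧ Pr i = {ab.1, ab.2} ∧
      M.card ≤ 8 * (ex A ab.1 ab.2 + ex A ab.2 ab.1)) := by
    intro i
    by_cases hi : i < r
    · obtain ⟨⟨a, ha, b, hb, h1, h2⟩, _⟩ := hPr1 i hi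
      exact ⟨(a, b), fun _ => ⟨ha, hb, h1, h2⟩⟩
    · exact ⟨(v0, v0), fun h => absurd h hi⟩
  choose ab hab using hPr1'
  -- connectors of the pairs
  set F1 := (range r).biUnion Pr with hF1
  have hF1c : F1.card ≤ 2 * r := by
    have h1 : F1.card ≤ ∑ i ∈ range r, (Pr i).card := card_biUnion_le
    have h2 : ∑ i ∈ range r, (Pr i).card ≤ ∑ i ∈ range r, 2 :=
      sum_le_sum (fun i hi => (hPr1 i (mem_range.1 hi)).2.1)
    rw [sum_const, card_range, smul_eq_mul] at h2
    omega
  obtain ⟨c, hc1, hc2⟩ := exists_distinct (ι := ℕ × Bool)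
    (fun ib => if ib.2 then mid A (ab ib.1).1 (ab ib.1).2 else mid A (ab ib.1).2 (ab ib.1).1) F1
    (2 * r) (range r ×ˢ (univ : Finset Bool)) (by
      rw [card_product, card_univ, Fintype.card_bool, card_range]; omega) (by
      rintro ⟨i, b⟩ hib
      rw [mem_product, mem_range] at hib
      obtain ⟨h1, h2, h3, h4⟩ := hab i hib.1
      have e1 := ex_le_mid hT (ab i).1 (ab i).2
      have e2 := ex_le_mid hT (ab i).2 (ab i).1
      have e3 := hfar _ h1 _ h2 (by omega)
      have e4 := hfar _ h2 _ h1 (by omega)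
      cases b
      · simp only [Bool.false_eq_true, if_false]
        omega
      · simp only [if_true]
        omega)
  set P : ℕ → Finset V := fun i => {(ab i).1, (ab i).2, c (i, true), c (i, false)} with hP
  set FP := (range r).biUnion P with hFP
  have hFPc : FP.card ≤ 4 * r := by
    have h1 : FP.card ≤ ∑ i ∈ range r, (P i).card := card_biUnion_le
    have h2 : ∑ i ∈ range r, (P i).card ≤ ∑ i ∈ range r, 4 :=
      sum_le_sum (fun i _ => card_le_four)
    rw [sum_const, card_range, smul_eq_mul] at h2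
    omega
  -- the sets Z
  obtain ⟨Z, hZ1, hZ2, hZ3⟩ := exists_selection hT r s hrs (M \ FP) (by
    have : M.card - FP.card ≤ (M \ FP).card := le_card_sdiff FP M
    omega)
  have hZM : ∀ i < r, ∀ z ∈ Z i, z ∈ M := fun i hi z hz => (mem_sdiff.1 ((hZ1 i hi).1 hz)).1
  have hZc : ((range r).biUnion Z).card ≤ 2 * (r * s) := by
    have h1 : ((range r).biUnion Z).card ≤ ∑ i ∈ range r, (Z i).card := card_biUnion_le
    have h2 : ∑ i ∈ range r, (Z i).card ≤ ∑ i ∈ range r, 2 * s :=
      sum_le_sum (fun i hi => (hZ1 i (mem_range.1 hi)).2)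
    rw [sum_const, card_range, smul_eq_mul] at h2
    have : r * (2 * s) = 2 * (r * s) := by ring
    omega
  -- the attachment vertices
  have hatt : ∀ z : V, ∃ w : V, ∀ i < r, z ∈ Z i →
      (w = (ab i).1 ∨ w = (ab i).2) ∧ M.card ≤ 16 * (ex A w z + ex A z w) := by
    intro z
    by_cases hz : ∃ i < r, z ∈ Z i
    · obtain ⟨i, hi, hzi⟩ := hz
      obtain ⟨h1, h2, h3, h4⟩ := hab i hi
      have t1 := ex_triangle (A := A) (ab i).1 z (ab i).2
      have t2 := ex_triangle (A := A) (ab i).2 z (ab i).1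
      have huniq : ∀ j < r, z ∈ Z j → j = i := by
        intro j hj hzj
        by_contra hne
        exact (Finset.disjoint_left.1 (hZ2 j hj i hi hne)) hzj hzi
      by_cases hcase : M.card ≤ 16 * (ex A (ab i).1 z + ex A z (ab i).1)
      · refine ⟨(ab i).1, ?_⟩
        intro j hj hzj
        rw [huniq j hj hzj]
        exact ⟨Or.inl rfl, hcase⟩
      · refine ⟨(ab i).2, ?_⟩
        intro j hj hzj
        rw [huniq j hj hzj]
        exact ⟨Or.inr rfl, by omega⟩
    · exact ⟨z, fun i hi hzi => absurd ⟨i, hi, hzi⟩ hz⟩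
  choose w hw using hatt
  have hwP : ∀ i < r, ∀ z ∈ Z i, w z ∈ P i := by
    intro i hi z hz
    rw [hP]
    simp only [mem_insert, mem_singleton]
    rcases (hw z i hi hz).1 with h | h
    · exact Or.inl h
    · exact Or.inr (Or.inl h)
  have hwM : ∀ i < r, ∀ z ∈ Z i, w z ∈ M := by
    intro i hi z hz
    obtain ⟨h1, h2, h3, h4⟩ := hab i hi
    rcases (hw z i hi hz).1 with h | h
    · rw [h]; exact h1
    · rw [h]; exact h2
  have habPr : ∀ i < r, (ab i).1 ∈ F1 ∧ (ab i).2 ∈ F1 := by
    intro i hi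
    obtain ⟨h1, h2, h3, h4⟩ := hab i hi
    constructor
    · refine mem_biUnion.2 ⟨i, mem_range.2 hi, ?_⟩
      rw [h3]; simp
    · refine mem_biUnion.2 ⟨i, mem_range.2 hi, ?_⟩
      rw [h3]; simp
  have hcmem : ∀ i < r, ∀ b : Bool, (i, b) ∈ ((range r ×ˢ (univ : Finset Bool) :
      Finset (ℕ × Bool)) : Set (ℕ × Bool)) := fun i hi b =>
    mem_coe.2 (mem_product.2 ⟨mem_range.2 hi, mem_univ _⟩)
  refine assemble (A := A) r (4 * (r * s)) (fun i => (ab i).1) (fun i => (ab i).1) P Z w w
    ?_ ?_ hZ2 ?_ ?_ ?_ ?_ ?_ ?_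
  · -- links
    intro i hi
    have hc3 := (hc2 (i, true) (mem_coe.1 (hcmem i hi true))).1
    have hc4 := (hc2 (i, false) (mem_coe.1 (hcmem i hi false))).1
    simp only [if_true] at hc3
    simp only [Bool.false_eq_true, if_false] at hc4
    rw [mem_mid] at hc3 hc4
    have m1 : (ab i).1 ∈ P i := by simp [hP]
    have m2 : (ab i).2 ∈ P i := by simp [hP]
    have m3 : c (i, true) ∈ P i := by simp [hP]
    have m4 : c (i, false) ∈ P i := by simp [hP]
    have s1 : ReflTransGen (Induced A (P i : Set V)) (ab i).1 (c (i, true)) :=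
      ReflTransGen.single ⟨mem_coe.2 m1, mem_coe.2 m3, hc3.1⟩
    have s2 : ReflTransGen (Induced A (P i : Set V)) (c (i, true)) (ab i).2 :=
      ReflTransGen.single ⟨mem_coe.2 m3, mem_coe.2 m2, hc3.2⟩
    have s3 : ReflTransGen (Induced A (P i : Set V)) (ab i).2 (c (i, false)) :=
      ReflTransGen.single ⟨mem_coe.2 m2, mem_coe.2 m4, hc4.1⟩
    have s4 : ReflTransGen (Induced A (P i : Set V)) (c (i, false)) (ab i).1 :=
      ReflTransGen.single ⟨mem_coe.2 m4, mem_coe.2 m1, hc4.2⟩
    refine ⟨m1, m1, ?_⟩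
    intro p hp
    simp only [hP, mem_insert, mem_singleton] at hp
    rcases hp with h | h | h | h
    · rw [h]; exact ⟨ReflTransGen.refl, ReflTransGen.refl⟩
    · rw [h]; exact ⟨s1.trans s2, s3.trans s4⟩
    · rw [h]; exact ⟨s1, (s2.trans s3).trans s4⟩
    · rw [h]; exact ⟨(s1.trans s2).trans s3, s4⟩
  · -- disjointness of the P i
    intro i hi j hj hij
    have hPrd := hPr2 i hi j hj hij
    obtain ⟨-, -, hi3, -⟩ := hab i hi
    obtain ⟨-, -, hj3, -⟩ := hab j hj
    have cF : ∀ k < r, ∀ b, c (k, b) ∉ F1 := fun k hk b =>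
      (hc2 (k, b) (mem_coe.1 (hcmem k hk b))).2
    have cne : ∀ b b', c (i, b) ≠ c (j, b') := by
      intro b b' h
      have := hc1 (hcmem i hi b) (hcmem j hj b') h
      exact hij (congrArg Prod.fst this)
    rw [Finset.disjoint_left]
    intro v hv hv'
    simp only [hP, mem_insert, mem_singleton] at hv hv'
    have hvi : v ∈ Pr i ∨ ∃ b, v = c (i, b) := by
      rw [hi3]
      rcases hv with h | h | h | h
      · left; simp [h]
      · left; simp [h]
      · exact Or.inr ⟨_, h⟩
      · exact Or.inr ⟨_, h⟩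
    have hvj : v ∈ Pr j ∨ ∃ b, v = c (j, b) := by
      rw [hj3]
      rcases hv' with h | h | h | h
      · left; simp [h]
      · left; simp [h]
      · exact Or.inr ⟨_, h⟩
      · exact Or.inr ⟨_, h⟩
    rcases hvi with h | ⟨b, h⟩ <;> rcases hvj with h' | ⟨b', h'⟩
    · exact (Finset.disjoint_left.1 hPrd) h h'
    · exact cF j hj b' (h' ▸ mem_biUnion.2 ⟨i, mem_range.2 hi, h⟩)
    · exact cF i hi b (h ▸ mem_biUnion.2 ⟨j, mem_range.2 hj, h'⟩)
    · exact cne b b' (h.symm.trans h')
  · -- P and Z are disjoint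
    intro i hi j hj
    rw [Finset.disjoint_left]
    intro v hv hv'
    have h1 := (mem_sdiff.1 ((hZ1 j hj).1 hv')).2
    exact h1 (mem_biUnion.2 ⟨i, mem_range.2 hi, hv⟩)
  · intro i hi j hj _
    exact hZ3 i hi j hj
  · intro i hi z hz
    exact ⟨hwP i hi z hz, hwP i hi z hz⟩
  · intro i hi
    exact Or.inl rfl
  · omega
  · intro z hz
    rw [mem_biUnion] at hz
    obtain ⟨i, hi, hz⟩ := hz
    rw [mem_range] at hi
    have h1 := (hw z i hi hz).2
    have e1 := ex_le_mid hT (w z) z
    have e2 := ex_le_mid hT z (w z)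
    have e3 := hfar _ (hwM i hi z hz) _ (hZM i hi z hz) h1
    have e4 := hfar _ (hZM i hi z hz) _ (hwM i hi z hz) (by omega)
    have e5 := card_union_le ((range r).biUnion P) ((range r).biUnion Z)
    have e6 : ((range r).biUnion P).card ≤ 4 * r := hFPc
    constructor <;> omega

end tangle

end Pool.Agent.H.MP_0d008e_co
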